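import Pool.Agent.N586.KO.Spc
import Pool.Agent.N586.RT.Hat
import Pool.Agent.Y933.KD.VdC2

/-!
# Project KO: the theorem for monotone families
-/

set_option autoImplicit false

namespace Pool.Agent.N586.KO

open Finset Real Filter
open Pool.Agent.Y933.KD (e)
open Pool.Agent.Y933.KD.VdC (ev_le one_add_log_le)
open Pool.Agent.N586.RT (logpow log_ge)

lemma Eqd.mono {w : ℕ} {ε E E' : ℝ} {N1 N1' : ℕ} {y : ℕ → ℝ} (h : Eqd w ε E N1 y) (hE : E ≤ E')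
    (hN : N1' ≤ N1) : Eqd w ε E' N1' y := fun N u v hN' hu huv hv =>
  (h N u v (hN'.trans hN) hu huv hv).trans (by linarith)

open Classical in
/-- the conditions for a family -/
structure Fam (T0 T1 c1 C2 : ℝ) (q : ℕ) (g : ℝ → ℝ) (B : ℕ) : Prop where
  ex : ∀ a : ℕ, a ≤ B → ∃ (Y : ℝ) (W : ℕ → ℕ → ℝ), Ex g a Y W ∧ T0 ≤ g a ∧ g a ≤ T1 ∧
      (q : ℝ) ^ (99 / 100 : ℝ) ≤ Y ∧ Y ≤ (q : ℝ) ^ (101 / 100 : ℝ)
  inc : ∀ a a' : ℕ, a ≤ a' → a' ≤ B → 1 / (q : ℝ) * ((a' : ℝ) - a) ≤ g a' - g a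
  lo : c1 * q ≤ (B : ℝ) + 1
  up : (B : ℝ) + 1 ≤ C2 * q

open Classical in
theorem ko_main (hE : S_EXPS) (hS : S_SM) (w : ℕ) (hw : 1 ≤ w) (ξ δ ε T0 T1 c1 C2 : ℝ)
    (hξ : ξ ≠ 0) (hδ : 0 < δ) (hδ2 : δ < 1 / 2) (hε : 0 < ε) (hT : 1 < T0) (hc1 : 0 < c1)
    (hC2 : 0 < C2) : ∃ C : ℝ, 0 < C ∧ ∃ q0 : ℕ, ∀ q : ℕ, q0 ≤ q → ∀ (g : ℝ → ℝ) (B : ℕ),
      Fam T0 T1 c1 C2 q g B →
      (((Finset.Icc 0 B).filter (fun a : ℕ => ¬ Eqd w ε (C * log q) ⌊(log q) ^ (1 + δ)⌋₊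
        (fun n => ξ * (g a) ^ n))).card : ℝ) ≤ q * (log q) ^ (-(1 / (3 * w)) : ℝ) / 4 := by
  obtain ⟨K, CS, hCS, hsm⟩ := hS w ε hε
  set β := (1 - 2 * δ) / 2 with hβdef
  have hβ : 0 < β := by rw [hβdef]; linarith
  obtain ⟨A0, hA0, q1, hexp⟩ := hE w K ξ δ β T0 T1 hξ hδ hβ (by rw [hβdef]; linarith) hT
  have hw0 : (0 : ℝ) < w := by exact_mod_cast (by omega : 0 < w)
  have hw1 : (1 : ℝ) ≤ w := by exact_mod_cast hw
  set u : ℝ := 1 / (12 * w) with hu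
  have hu0 : 0 < u := by positivity
  have hu1 : 12 * u ≤ 1 := by
    have : 12 * u = 1 / w := by rw [hu]; field_simp
    rw [this, div_le_one hw0]
    exact hw1
  set C1 : ℝ := (w * 3 + 1) / c1 + 1 with hC1
  have hC10 : 0 < C1 := by positivity
  set K2 : ℝ := CS * C2 * (1 / A0 + C1 * (2 * (1 + 1 / u))) with hK2
  have hK20 : 0 ≤ K2 := by positivity
  refine ⟨2 * (A0 + 1), by positivity, ?_⟩
  obtain ⟨q2, hq2⟩ := eventually_atTop.1 ((((((log_ge 1).and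
    (logpow (by linarith : (1 : ℝ) < 1 + δ) (A0 + 1))).and
    (ev_le 20 (11 / 100) (by norm_num))).and
    (logpow (by linarith : β / 2 < β) (2 / β))).and
    (logpow (by linarith : -(5 * u) < -(4 * u)) (4 * K2))).and (eventually_ge_atTop 2))
  refine ⟨max q1 q2, fun q hq g B hF => ?_⟩
  obtain ⟨⟨⟨⟨⟨hL1, hLδ⟩, hq20⟩, hLβ⟩, hLfin⟩, hq2'⟩ := hq2 q ((le_max_right _ _).trans hq)
  have hqR : (2 : ℝ) ≤ q := by exact_mod_cast hq2'
  have hq0 : (0 : ℝ) < q := by linarith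
  obtain ⟨L, hL⟩ : ∃ L : ℝ, L = log q := ⟨_, rfl⟩
  have hexpq := hexp q ((le_max_left _ _).trans hq)
  rw [← hL] at hL1 hLδ hLβ hLfin hexpq ⊢
  rw [Real.rpow_one] at hLδ
  have hL0 : 0 < L := by linarith
  have hadd : ∀ x y : ℝ, L ^ x * L ^ y = L ^ (x + y) := fun x y => (Real.rpow_add hL0 x y).symm
  have hmono : ∀ x y : ℝ, x ≤ y → L ^ x ≤ L ^ y := fun x y hxy =>
    Real.rpow_le_rpow_of_exponent_le hL1 hxy
  set η0 : ℝ := L ^ (-(6 * u)) with hη0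
  have hη00 : 0 < η0 := by positivity
  -- the logarithm is small
  have hLq : L ≤ 10 * (q : ℝ) ^ (11 / 100 : ℝ) := by
    have := Real.log_le_rpow_div hq0.le (by norm_num : (0 : ℝ) < 11 / 100)
    rw [← hL] at this
    have h3 : 0 < (q : ℝ) ^ (11 / 100 : ℝ) := by positivity
    calc L ≤ (q : ℝ) ^ (11 / 100 : ℝ) / (11 / 100) := this
      _ ≤ 10 * (q : ℝ) ^ (11 / 100 : ℝ) := by rw [div_le_iff₀ (by norm_num)]; linarith
  have hL6 : L ^ (6 * u) ≤ L := by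
    calc L ^ (6 * u) ≤ L ^ (1 : ℝ) := hmono _ _ (by linarith)
      _ = L := Real.rpow_one L
  have hη1 : L ^ (6 * u) * η0 = 1 := by
    rw [hη0, hadd, add_neg_cancel, Real.rpow_zero]
  -- the number of points
  have hM : 2 * (MM q : ℝ) ^ 2 ≤ q * η0 := by
    have h1 : (MM q : ℝ) ≤ (q : ℝ) ^ (39 / 100 : ℝ) := Nat.floor_le (by positivity)
    have h2 : (MM q : ℝ) ^ 2 ≤ (q : ℝ) ^ (78 / 100 : ℝ) := by
      calc (MM q : ℝ) ^ 2 ≤ ((q : ℝ) ^ (39 / 100 : ℝ)) ^ 2 := pow_le_pow_left₀ (by positivity) h1 2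
        _ = (q : ℝ) ^ (78 / 100 : ℝ) := by
          rw [← Real.rpow_natCast, ← Real.rpow_mul hq0.le]; norm_num
    have h3 : 2 * L ≤ (q : ℝ) ^ (22 / 100 : ℝ) := by
      have h4 : (q : ℝ) ^ (22 / 100 : ℝ) = (q : ℝ) ^ (11 / 100 : ℝ) * (q : ℝ) ^ (11 / 100 : ℝ) := by
        rw [← Real.rpow_add hq0]; norm_num
      rw [h4]
      nlinarith [hLq, hq20]
    have h5 : (q : ℝ) = (q : ℝ) ^ (78 / 100 : ℝ) * (q : ℝ) ^ (22 / 100 : ℝ) := by
      rw [← Real.rpow_add hq0]; norm_num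
    have h6 : 2 * (q : ℝ) ^ (78 / 100 : ℝ) * L ^ (6 * u) ≤ q := by
      calc 2 * (q : ℝ) ^ (78 / 100 : ℝ) * L ^ (6 * u) ≤ 2 * (q : ℝ) ^ (78 / 100 : ℝ) * L :=
            mul_le_mul_of_nonneg_left hL6 (by positivity)
        _ = (q : ℝ) ^ (78 / 100 : ℝ) * (2 * L) := by ring
        _ ≤ (q : ℝ) ^ (78 / 100 : ℝ) * (q : ℝ) ^ (22 / 100 : ℝ) :=
          mul_le_mul_of_nonneg_left h3 (by positivity)
        _ = q := h5.symm
    calc 2 * (MM q : ℝ) ^ 2 ≤ 2 * (q : ℝ) ^ (78 / 100 : ℝ) := by linarith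
      _ = (2 * (q : ℝ) ^ (78 / 100 : ℝ) * L ^ (6 * u)) * η0 := by rw [mul_assoc, hη1, mul_one]
      _ ≤ q * η0 := mul_le_mul_of_nonneg_right h6 hη00.le
  have hone : 1 ≤ q * η0 := by
    have h1 : L ≤ q := by
      rw [hL]
      exact (Real.log_le_sub_one_of_pos hq0).trans (by linarith)
    calc (1 : ℝ) = L ^ (6 * u) * η0 := hη1.symm
      _ ≤ q * η0 := mul_le_mul_of_nonneg_right (hL6.trans h1) hη00.le
  have hexpη : Real.exp (-L ^ β) ≤ η0 := by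
    have h1 : log L ≤ L ^ β := by
      have h2 := Real.log_le_rpow_div hL0.le (by linarith : (0 : ℝ) < β / 2)
      calc log L ≤ L ^ (β / 2) / (β / 2) := h2
        _ = 2 / β * L ^ (β / 2) := by field_simp
        _ ≤ L ^ β := hLβ
    have h9 : L ^ (-(6 * u)) = Real.exp (log L * (-(6 * u))) := Real.rpow_def_of_pos hL0 _
    rw [hη0, h9]
    apply Real.exp_le_exp.2
    have h3 : 0 ≤ log L := Real.log_nonneg hL1
    nlinarith
  -- the parameters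
  set n0 : ℕ := ⌈A0 * L⌉₊ with hn0
  set N1 : ℕ := ⌊L ^ (1 + δ)⌋₊ with hN1
  have hn0p : 1 ≤ n0 := Nat.one_le_ceil_iff.2 (by positivity)
  have hn0u : (n0 : ℝ) ≤ (A0 + 1) * L := by
    have := (Nat.ceil_lt_add_one (by positivity : 0 ≤ A0 * L)).le
    rw [← hn0] at this
    linarith
  have hn0l : A0 * L ≤ n0 := Nat.le_ceil _
  have hn0N : n0 ≤ N1 := Nat.le_floor (hn0u.trans hLδ)
  have hN1u : (N1 : ℝ) ≤ L ^ (1 + δ) := Nat.floor_le (by positivity)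
  have hcard : (((Finset.Icc 0 B).card : ℕ) : ℝ) = (B : ℝ) + 1 := by
    rw [Nat.card_Icc]; push_cast; ring
  -- the exponential sums
  have hsum : ∀ l : ℕ → ℤ, (∀ j, |l j| ≤ K) → (∃ j < w, l j ≠ 0) → ∀ n n' : ℕ, n0 ≤ n' → n' < n →
      n ≤ N1 → ‖∑ a ∈ Finset.Icc 0 B, e (∑ j ∈ Finset.range w, (l j : ℝ) *
        (ξ * (g a) ^ (n + j) - ξ * (g a) ^ (n' + j)))‖ ≤ C1 * η0 * ((Finset.Icc 0 B).card : ℝ) := by
    intro l hl hl0 n n' hn' hnn hn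
    have h1 := hexpq g 0 B (fun a _ ha => hF.ex a ha) l n n' hl hnn
      (hn0l.trans (by exact_mod_cast hn'))
      (le_trans (by exact_mod_cast hn) hN1u)
    have h2 : ∀ a : ℕ, (∑ j ∈ Finset.range w, (l j : ℝ) *
        (ξ * (g a) ^ (n + j) - ξ * (g a) ^ (n' + j))) = Fph w ξ l n n' (g a) := by
      intro a
      unfold Fph
      rw [mul_sum]
      refine sum_congr rfl fun j _ => ?_
      ring
    simp only [h2]
    refine h1.trans ?_
    have h3 := spc w hw l hl0 (fun a : ℕ => g a) 0 B (1 / (q : ℝ)) (by positivity)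
      (fun a a' _ h4 h5 => hF.inc a a' h4 h5) (L ^ (-(1 / 2) : ℝ)) (by positivity)
      (Real.rpow_le_one_of_one_le_of_nonpos hL1 (by norm_num))
    have h4 : (L ^ (-(1 / 2) : ℝ)) ^ (1 / (w : ℝ)) = η0 := by
      rw [← Real.rpow_mul hL0.le, hη0, hu]
      congr 1
      field_simp
      norm_num
    rw [h4] at h3
    have h5 : (w : ℝ) * (2 * η0 / (1 / (q : ℝ)) + 1) ≤ w * 3 * (q * η0) := by
      have h6 : 2 * η0 / (1 / (q : ℝ)) = 2 * (q * η0) := by field_simp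
      rw [h6]
      nlinarith [hone, hw0]
    have h6 : (q : ℝ) ≤ ((B : ℝ) + 1) / c1 := by
      rw [le_div_iff₀ hc1]
      linarith [hF.lo]
    rw [hcard]
    have hB0 : (0 : ℝ) ≤ (B : ℝ) + 1 := by positivity
    have h7 : (((Finset.Icc 0 B).filter (fun a : ℕ =>
        |pl w l (g a)| < L ^ (-(1 / 2) : ℝ))).card : ℝ) ≤ w * 3 * (q * η0) := by
      refine le_trans ?_ (h3.trans h5)
      exact_mod_cast le_of_eq rfl
    calc (((Finset.Icc 0 B).filter (fun a : ℕ => |pl w l (g a)| < L ^ (-(1 / 2) : ℝ))).card : ℝ) +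
          2 * (MM q : ℝ) ^ 2 + ((B : ℝ) + 1) * Real.exp (-L ^ β)
        ≤ w * 3 * (q * η0) + q * η0 + ((B : ℝ) + 1) * η0 := by
          have := mul_le_mul_of_nonneg_left hexpη hB0
          linarith
      _ = ((w * 3 + 1) * q + ((B : ℝ) + 1)) * η0 := by ring
      _ ≤ ((w * 3 + 1) * (((B : ℝ) + 1) / c1) + ((B : ℝ) + 1)) * η0 := by
          have := mul_le_mul_of_nonneg_left h6 (by positivity : (0 : ℝ) ≤ w * 3 + 1)
          exact mul_le_mul_of_nonneg_right (by linarith) hη00.le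
      _ = C1 * η0 * ((B : ℝ) + 1) := by rw [hC1]; ring
  have hmain := hsm (Finset.Icc 0 B) (fun a n => ξ * (g a) ^ n) n0 N1 (C1 * η0) hn0p hn0N
    (by positivity) hsum
  have hsub : (Finset.Icc 0 B).filter (fun a : ℕ => ¬ Eqd w ε (2 * (A0 + 1) * L) N1
      (fun n => ξ * (g a) ^ n)) ⊆
      (Finset.Icc 0 B).filter (fun a : ℕ => ¬ Eqd w ε (2 * n0) N1 (fun n => ξ * (g a) ^ n)) := by
    intro a ha
    rw [Finset.mem_filter] at ha ⊢
    exact ⟨ha.1, fun h => ha.2 (h.mono (by linarith) le_rfl)⟩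
  refine (Nat.cast_le.2 (card_le_card hsub)).trans (hmain.trans ?_)
  rw [hcard]
  have hlogN : 1 + log N1 ≤ 2 * (1 + 1 / u) * L ^ u := by
    have h1 : (1 : ℝ) ≤ N1 := by exact_mod_cast hn0p.trans hn0N
    have h2 : log N1 ≤ (1 + δ) * log L := by
      rw [← Real.log_rpow hL0]
      exact Real.log_le_log (by linarith) hN1u
    have h3 := one_add_log_le hL1 hu0
    have h4 : 0 ≤ log L := Real.log_nonneg hL1
    nlinarith
  have hn0inv : 1 / (n0 : ℝ) ≤ 1 / A0 * L ^ (-(5 * u)) := by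
    calc 1 / (n0 : ℝ) ≤ 1 / (A0 * L) := one_div_le_one_div_of_le (by positivity) hn0l
      _ = 1 / A0 * L ^ (-1 : ℝ) := by rw [Real.rpow_neg_one]; field_simp
      _ ≤ 1 / A0 * L ^ (-(5 * u)) := mul_le_mul_of_nonneg_left (hmono _ _ (by linarith))
        (by positivity)
  have h10 : 1 / (n0 : ℝ) + C1 * η0 * (1 + log N1) ≤
      (1 / A0 + C1 * (2 * (1 + 1 / u))) * L ^ (-(5 * u)) := by
    have h11 : C1 * η0 * (1 + log N1) ≤ C1 * (2 * (1 + 1 / u)) * L ^ (-(5 * u)) := by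
      calc C1 * η0 * (1 + log N1) ≤ C1 * η0 * (2 * (1 + 1 / u) * L ^ u) :=
            mul_le_mul_of_nonneg_left hlogN (by positivity)
        _ = C1 * (2 * (1 + 1 / u)) * (L ^ u * η0) := by ring
        _ = C1 * (2 * (1 + 1 / u)) * L ^ (-(5 * u)) := by
          rw [hη0, hadd]
          congr 2
          ring
    linarith
  have h12 : L ^ (-(4 * u)) = L ^ (-(1 / (3 * w)) : ℝ) := by
    congr 1
    rw [hu]
    field_simp
    norm_num
  have hpos : 0 ≤ 1 / (n0 : ℝ) + C1 * η0 * (1 + log N1) := by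
    have h1 : (1 : ℝ) ≤ N1 := by exact_mod_cast hn0p.trans hn0N
    have := Real.log_nonneg h1
    positivity
  calc CS * ((B : ℝ) + 1) * (1 / (n0 : ℝ) + C1 * η0 * (1 + log N1))
      ≤ CS * (C2 * q) * ((1 / A0 + C1 * (2 * (1 + 1 / u))) * L ^ (-(5 * u))) :=
        mul_le_mul (mul_le_mul_of_nonneg_left hF.up hCS) h10 hpos (by positivity)
    _ = q * (4 * K2 * L ^ (-(5 * u))) / 4 := by rw [hK2]; ring
    _ ≤ q * L ^ (-(4 * u)) / 4 := by
      have := mul_le_mul_of_nonneg_left hLfin hq0.le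
      linarith
    _ = q * L ^ (-(1 / (3 * w)) : ℝ) / 4 := by rw [h12]

end Pool.Agent.N586.KO
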