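import Pool.Agent.N586.KO.Fin

/-!
# Project KO: arithmetic and geometric progressions of small step
-/

set_option autoImplicit false

namespace Pool.Agent.N586.KO

open Finset Real Filter
open Pool.Agent.Y933.KD.VdC (ev_le)

lemma Ex.scale {g : ℝ → ℝ} {a Y : ℝ} {W : ℕ → ℕ → ℝ} (h : Ex g a Y W) (c : ℝ) :
    Ex (fun t => c * g t) a Y W where
  sum m y hy := by
    have h1 := (h.sum m y hy).mul_left (c ^ m)
    have h2 : (fun k : ℕ => W m k * (c * g a) ^ m * y ^ k) =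
        (fun k : ℕ => c ^ m * (W m k * g a ^ m * y ^ k)) := by
      funext k
      rw [mul_pow]
      ring
    show HasSum (fun k : ℕ => W m k * (c * g a) ^ m * y ^ k) ((c * g (a + y)) ^ m)
    rw [h2, mul_pow]
    exact h1
  nonneg := h.nonneg
  lo := h.lo
  up := h.up
  mono := h.mono
  ratio := h.ratio

lemma Ex.shift {g : ℝ → ℝ} {a Y c : ℝ} {W : ℕ → ℕ → ℝ} (h : Ex g (a + c) Y W) :
    Ex (fun t => g (t + c)) a Y W where
  sum m y hy := by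
    have h1 := h.sum m y hy
    have h2 : a + c + y = a + y + c := by ring
    rw [h2] at h1
    exact h1
  nonneg := h.nonneg
  lo := h.lo
  up := h.up
  mono := h.mono
  ratio := h.ratio

lemma int_interval (u v : ℝ) (h : 2 ≤ v - u) : ∃ (a0 : ℤ) (B : ℕ),
    (∀ a : ℤ, (u ≤ a ∧ (a : ℝ) ≤ v) ↔ (a0 ≤ a ∧ a ≤ a0 + B)) ∧ v - u - 2 ≤ B ∧ (B : ℝ) ≤ v - u := by
  have h1 := Int.ceil_lt_add_one u
  have h2 := Int.lt_floor_add_one v
  have h3 := Int.le_ceil u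
  have h4 := Int.floor_le v
  have h5 : ⌈u⌉ ≤ ⌊v⌋ := by
    have : ((⌈u⌉ : ℤ) : ℝ) ≤ ((⌊v⌋ : ℤ) : ℝ) := by linarith
    exact_mod_cast this
  have h6 : (((⌊v⌋ - ⌈u⌉).toNat : ℕ) : ℤ) = ⌊v⌋ - ⌈u⌉ := Int.toNat_of_nonneg (by omega)
  have h7 : (((⌊v⌋ - ⌈u⌉).toNat : ℕ) : ℝ) = (⌊v⌋ : ℝ) - ⌈u⌉ := by
    have : ((((⌊v⌋ - ⌈u⌉).toNat : ℕ) : ℤ) : ℝ) = ((⌊v⌋ - ⌈u⌉ : ℤ) : ℝ) := by rw [h6]
    push_cast at this
    exact this
  refine ⟨⌈u⌉, (⌊v⌋ - ⌈u⌉).toNat, fun a => ?_, ?_, ?_⟩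
  · rw [h6, ← Int.ceil_le, ← Int.le_floor]
    constructor
    · rintro ⟨h8, h9⟩
      exact ⟨h8, by omega⟩
    · rintro ⟨h8, h9⟩
      exact ⟨h8, by omega⟩
  · rw [h7]; linarith
  · rw [h7]; linarith

open Classical in
theorem conclude (w : ℕ) (ξ δ ε T0 T1 C0 ℓ : ℝ) (hδ : 0 < δ) (hℓ : 0 < ℓ) (hC0 : 0 < C0) (q0 : ℕ)
    (hq0 : ∀ q : ℕ, q0 ≤ q → ∀ (g : ℝ → ℝ) (B : ℕ), Fam T0 T1 (ℓ / 4) (ℓ + 1) q g B →
      (((Finset.Icc 0 B).filter (fun a : ℕ => ¬ Eqd w ε (C0 * log q) ⌊(log q) ^ (1 + δ)⌋₊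
        (fun n => ξ * (g a) ^ n))).card : ℝ) ≤ q * (log q) ^ (-(1 / (3 * w)) : ℝ) / 4) :
    ∃ s0 : ℝ, 0 < s0 ∧ ∀ s : ℝ, 0 < s → s ≤ s0 → ∀ (X : ℝ → ℝ) (u : ℝ),
      (∀ a : ℤ, (T0 ≤ X a ∧ X a ≤ T1) ↔ (u ≤ a ∧ (a : ℝ) ≤ u + ℓ / s)) →
      (∀ a : ℝ, T0 ≤ X a → X a ≤ T1 →
        ∃ (Y : ℝ) (W : ℕ → ℕ → ℝ), Ex X a Y W ∧ 1 / s ≤ Y ∧ Y ≤ T1 / s) →
      (∀ a a' : ℝ, a ≤ a' → T0 ≤ X a → s * (a' - a) ≤ X a' - X a) →
      (({a : ℤ | T0 ≤ X a ∧ X a ≤ T1 ∧ ¬ Eqd w ε (2 * C0 * log (1 / s)) ⌊(log (1 / s)) ^ (1 + δ)⌋₊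
        (fun n => ξ * (X a) ^ n)}.ncard : ℕ) : ℝ) ≤ 1 / s * (log (1 / s)) ^ (-(1 / (3 * w)) : ℝ) := by
  obtain ⟨q1, hq1⟩ := eventually_atTop.1 ((ev_le 2 (1 / 100) (by norm_num)).and
    (ev_le T1 (1 / 100) (by norm_num)))
  set R : ℝ := (q0 : ℝ) + q1 + 3 + 2 / ℓ with hR
  have hR0 : 0 < R := by positivity
  have h2ℓ : 0 < 2 / ℓ := by positivity
  refine ⟨1 / R, by positivity, ?_⟩
  intro s hs hsR X u hX hex hinc
  have hsR' : R ≤ 1 / s := by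
    rw [le_div_iff₀ hs]
    rw [le_div_iff₀ hR0] at hsR
    linarith
  have hs3 : 3 ≤ 1 / s := by
    have : (0 : ℝ) ≤ q0 := by positivity
    have : (0 : ℝ) ≤ q1 := by positivity
    linarith
  have hinv : 0 < 1 / s := by positivity
  set q : ℕ := ⌈1 / s⌉₊ with hq
  have hq_ge : 1 / s ≤ q := Nat.le_ceil _
  have hq_le : (q : ℝ) ≤ 2 * (1 / s) := by
    have := (Nat.ceil_lt_add_one hinv.le).le
    rw [← hq] at this
    linarith
  have hqp : (0 : ℝ) < q := by linarith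
  have hq0' : q0 ≤ q := by
    have : (q0 : ℝ) ≤ q := by
      have : (0 : ℝ) ≤ q1 := by positivity
      linarith
    exact_mod_cast this
  have hq1' : q1 ≤ q := by
    have : (q1 : ℝ) ≤ q := by
      have : (0 : ℝ) ≤ q0 := by positivity
      linarith
    exact_mod_cast this
  obtain ⟨h2, hT⟩ := hq1 q hq1'
  have hℓs : 2 ≤ ℓ / s := by
    have h3 : 2 / ℓ ≤ 1 / s := by
      have : (0 : ℝ) ≤ q0 := by positivity
      have : (0 : ℝ) ≤ q1 := by positivity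
      linarith
    rw [div_le_iff₀ hℓ] at h3
    calc (2 : ℝ) ≤ 1 / s * ℓ := h3
      _ = ℓ / s := by ring
  obtain ⟨a0, B, hB1, hB2, hB3⟩ := int_interval u (u + ℓ / s) (by linarith)
  have hshift : ∀ k : ℕ, X (((a0 + k : ℤ) : ℝ)) = X ((k : ℝ) + (a0 : ℝ)) := by
    intro k
    congr 1
    push_cast
    ring
  have hrange : ∀ k : ℕ, k ≤ B → T0 ≤ X ((k : ℝ) + (a0 : ℝ)) ∧ X ((k : ℝ) + (a0 : ℝ)) ≤ T1 := by
    intro k hk
    rw [← hshift k]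
    refine (hX (a0 + k)).2 ((hB1 (a0 + k)).2 ⟨by omega, by omega⟩)
  have hlow : (q : ℝ) ^ (99 / 100 : ℝ) ≤ 1 / s := by
    have h3 : (q : ℝ) ^ (99 / 100 : ℝ) * (q : ℝ) ^ (1 / 100 : ℝ) = q := by
      rw [← Real.rpow_add hqp]; norm_num
    have h4 : (q : ℝ) ^ (99 / 100 : ℝ) * 2 ≤ q := by
      calc (q : ℝ) ^ (99 / 100 : ℝ) * 2 ≤ (q : ℝ) ^ (99 / 100 : ℝ) * (q : ℝ) ^ (1 / 100 : ℝ) :=
            mul_le_mul_of_nonneg_left h2 (by positivity)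
        _ = q := h3
    linarith
  have hhigh : T1 / s ≤ (q : ℝ) ^ (101 / 100 : ℝ) := by
    have h3 : (q : ℝ) ^ (101 / 100 : ℝ) = (q : ℝ) ^ (1 / 100 : ℝ) * q := by
      calc (q : ℝ) ^ (101 / 100 : ℝ) = (q : ℝ) ^ ((1 / 100 : ℝ) + 1) := by norm_num
        _ = (q : ℝ) ^ (1 / 100 : ℝ) * q := by rw [Real.rpow_add hqp, Real.rpow_one]
    rw [h3]
    calc T1 / s = T1 * (1 / s) := by ring
      _ ≤ (q : ℝ) ^ (1 / 100 : ℝ) * (1 / s) := mul_le_mul_of_nonneg_right hT hinv.le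
      _ ≤ (q : ℝ) ^ (1 / 100 : ℝ) * q := mul_le_mul_of_nonneg_left hq_ge (by positivity)
  have hFam : Fam T0 T1 (ℓ / 4) (ℓ + 1) q (fun t => X (t + (a0 : ℝ))) B := by
    refine ⟨fun a ha => ?_, fun a a' haa ha' => ?_, ?_, ?_⟩
    · obtain ⟨h3, h4⟩ := hrange a ha
      obtain ⟨Y, W, h5, h6, h7⟩ := hex _ h3 h4
      exact ⟨Y, W, h5.shift, h3, h4, hlow.trans h6, h7.trans hhigh⟩
    · have h3 := hinc ((a : ℝ) + a0) ((a' : ℝ) + a0) (by
        have : (a : ℝ) ≤ a' := by exact_mod_cast haa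
        linarith) (hrange a (by omega)).1
      have h4 : (0 : ℝ) ≤ (a' : ℝ) - a := by
        have : (a : ℝ) ≤ a' := by exact_mod_cast haa
        linarith
      have h5 : 1 / (q : ℝ) ≤ s := by
        rw [div_le_iff₀ hqp]
        rw [div_le_iff₀ hs] at hq_ge
        linarith
      calc 1 / (q : ℝ) * ((a' : ℝ) - a) ≤ s * ((a' : ℝ) - a) := mul_le_mul_of_nonneg_right h5 h4
        _ = s * (((a' : ℝ) + a0) - ((a : ℝ) + a0)) := by ring
        _ ≤ _ := h3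
    · have h3 : ℓ / 4 * q ≤ ℓ / s / 2 := by
        calc ℓ / 4 * q ≤ ℓ / 4 * (2 * (1 / s)) := mul_le_mul_of_nonneg_left hq_le (by positivity)
          _ = ℓ / s / 2 := by ring
      linarith
    · have h3 : ℓ / s ≤ ℓ * q := by
        calc ℓ / s = ℓ * (1 / s) := by ring
          _ ≤ ℓ * q := mul_le_mul_of_nonneg_left hq_ge hℓ.le
      have h4 : (1 : ℝ) ≤ q := by linarith
      linarith
  have hmain := hq0 q hq0' _ B hFam
  have hlog1 : 1 ≤ log (1 / s) := by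
    rw [Real.le_log_iff_exp_le hinv]
    have := Real.exp_one_lt_d9
    linarith
  have hlogq1 : log (1 / s) ≤ log q := Real.log_le_log hinv hq_ge
  have hlogq2 : log q ≤ 2 * log (1 / s) := by
    have h3 : log q ≤ log (2 * (1 / s)) := Real.log_le_log hqp hq_le
    rw [Real.log_mul (by norm_num) hinv.ne'] at h3
    have h4 : log 2 ≤ log (1 / s) := Real.log_le_log (by norm_num) (by linarith)
    linarith
  have hN : ⌊(log (1 / s)) ^ (1 + δ)⌋₊ ≤ ⌊(log q) ^ (1 + δ)⌋₊ :=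
    Nat.floor_le_floor (Real.rpow_le_rpow (by linarith) hlogq1 (by linarith))
  have hsub : {a : ℤ | T0 ≤ X a ∧ X a ≤ T1 ∧ ¬ Eqd w ε (2 * C0 * log (1 / s))
      ⌊(log (1 / s)) ^ (1 + δ)⌋₊ (fun n => ξ * (X a) ^ n)} ⊆
      ((((Finset.Icc 0 B).filter (fun a : ℕ => ¬ Eqd w ε (C0 * log q) ⌊(log q) ^ (1 + δ)⌋₊
        (fun n => ξ * (X ((a : ℝ) + (a0 : ℝ))) ^ n))).image (fun k : ℕ => a0 + (k : ℤ)) : Finset ℤ) :
          Set ℤ) := by
    rintro a ⟨h3, h4, h5⟩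
    obtain ⟨h6, h7⟩ := (hB1 a).1 ((hX a).1 ⟨h3, h4⟩)
    rw [Finset.mem_coe, Finset.mem_image]
    refine ⟨(a - a0).toNat, ?_, ?_⟩
    · rw [Finset.mem_filter, Finset.mem_Icc]
      refine ⟨⟨Nat.zero_le _, by omega⟩, fun h8 => h5 ?_⟩
      have h9 : (((a - a0).toNat : ℕ) : ℝ) + (a0 : ℝ) = (a : ℝ) := by
        have h10 : (((a - a0).toNat : ℕ) : ℤ) + a0 = a := by omega
        exact_mod_cast h10
      rw [h9] at h8
      refine h8.mono ?_ hN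
      calc C0 * log q ≤ C0 * (2 * log (1 / s)) := mul_le_mul_of_nonneg_left hlogq2 hC0.le
        _ = 2 * C0 * log (1 / s) := by ring
    · show a0 + (((a - a0).toNat : ℕ) : ℤ) = a
      omega
  have hcount := Set.ncard_le_ncard hsub (Finset.finite_toSet _)
  rw [Set.ncard_coe_finset] at hcount
  have hcount2 := hcount.trans Finset.card_image_le
  refine (Nat.cast_le.2 hcount2).trans (hmain.trans ?_)
  have hx : (log q) ^ (-(1 / (3 * w)) : ℝ) ≤ (log (1 / s)) ^ (-(1 / (3 * w)) : ℝ) :=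
    Real.rpow_le_rpow_of_nonpos (by linarith) hlogq1 (by
      have : (0 : ℝ) ≤ 1 / (3 * w) := by positivity
      linarith)
  have hx0 : 0 ≤ (log (1 / s)) ^ (-(1 / (3 * w)) : ℝ) := Real.rpow_nonneg (by linarith) _
  calc (q : ℝ) * (log q) ^ (-(1 / (3 * w)) : ℝ) / 4
      ≤ (2 * (1 / s)) * (log (1 / s)) ^ (-(1 / (3 * w)) : ℝ) / 4 := by
        have := mul_le_mul hq_le hx (Real.rpow_nonneg (by linarith) _) (by positivity)
        linarith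
    _ ≤ 1 / s * (log (1 / s)) ^ (-(1 / (3 * w)) : ℝ) := by
        have := mul_nonneg hinv.le hx0
        linarith

/-- arithmetic progressions -/
theorem arith (hE : S_EXPS) (hS : S_SM) (hFR : S_FR) (w : ℕ) (hw : 1 ≤ w) (ξ δ ε T0 T1 : ℝ)
    (hξ : ξ ≠ 0) (hδ : 0 < δ) (hδ2 : δ < 1 / 2) (hε : 0 < ε) (hT : 1 < T0) (hT1 : T0 < T1) :
    ∃ C : ℝ, 0 < C ∧ ∃ s0 : ℝ, 0 < s0 ∧ ∀ s : ℝ, 0 < s → s ≤ s0 → ∀ β : ℝ,
      (({a : ℤ | T0 ≤ β + s * a ∧ β + s * a ≤ T1 ∧ ¬ Eqd w ε (C * log (1 / s))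
        ⌊(log (1 / s)) ^ (1 + δ)⌋₊ (fun n => ξ * (β + s * a) ^ n)}.ncard : ℕ) : ℝ) ≤
        1 / s * (log (1 / s)) ^ (-(1 / (3 * w)) : ℝ) := by
  have hℓ : 0 < T1 - T0 := by linarith
  obtain ⟨C0, hC0, q0, hq0⟩ := ko_main hE hS w hw ξ δ ε T0 T1 ((T1 - T0) / 4) (T1 - T0 + 1) hξ hδ
    hδ2 hε hT (by positivity) (by positivity)
  obtain ⟨s0, hs0, h⟩ := conclude w ξ δ ε T0 T1 C0 (T1 - T0) hδ hℓ hC0 q0 hq0
  refine ⟨2 * C0, by positivity, s0, hs0, fun s hs hss β => ?_⟩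
  refine h s hs hss (fun t => β + s * t) ((T0 - β) / s) (fun a => ?_) (fun a h1 h2 => ?_)
    (fun a a' haa _ => ?_)
  · rw [div_le_iff₀ hs, ← add_div, le_div_iff₀ hs]
    constructor
    · rintro ⟨h1, h2⟩
      exact ⟨by linarith, by linarith⟩
    · rintro ⟨h1, h2⟩
      exact ⟨by linarith, by linarith⟩
  · have h3 : 0 < a + β / s := by
      have : 0 < (β + s * a) / s := div_pos (by linarith) hs
      have h4 : (β + s * a) / s = a + β / s := by field_simp; ring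
      rwa [h4] at this
    have h5 := (((hFR 1 (a + β / s) le_rfl h3).shift)).scale s
    have h6 : (fun t => s * ((t + β / s) / ((1 : ℕ) : ℝ))) = (fun t => β + s * t) := by
      funext t
      field_simp
      push_cast
      ring
    rw [h6] at h5
    have h7 : a + β / s = (β + s * a) / s := by field_simp; ring
    refine ⟨a + β / s, _, h5, ?_, ?_⟩
    · rw [h7, div_le_div_iff_of_pos_right hs]
      linarith
    · rw [h7, div_le_div_iff_of_pos_right hs]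
      exact h2
  · show s * (a' - a) ≤ (β + s * a') - (β + s * a)
    linarith

/-- geometric progressions -/
theorem geom (hE : S_EXPS) (hS : S_SM) (hFE : S_FE) (w : ℕ) (hw : 1 ≤ w) (ξ δ ε T0 T1 : ℝ)
    (hξ : ξ ≠ 0) (hδ : 0 < δ) (hδ2 : δ < 1 / 2) (hε : 0 < ε) (hT : 1 < T0) (hT1 : T0 < T1) :
    ∃ C : ℝ, 0 < C ∧ ∃ s0 : ℝ, 0 < s0 ∧ ∀ s : ℝ, 0 < s → s ≤ s0 → ∀ β : ℝ, 0 < β →
      (({a : ℤ | T0 ≤ β * Real.exp (s * a) ∧ β * Real.exp (s * a) ≤ T1 ∧ ¬ Eqd w ε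
        (C * log (1 / s)) ⌊(log (1 / s)) ^ (1 + δ)⌋₊
        (fun n => ξ * (β * Real.exp (s * a)) ^ n)}.ncard : ℕ) : ℝ) ≤
        1 / s * (log (1 / s)) ^ (-(1 / (3 * w)) : ℝ) := by
  have hT00 : 0 < T0 := by linarith
  have hT10 : 0 < T1 := by linarith
  have hℓ : 0 < log T1 - log T0 := by
    have := Real.log_lt_log hT00 hT1
    linarith
  obtain ⟨C0, hC0, q0, hq0⟩ := ko_main hE hS w hw ξ δ ε T0 T1 ((log T1 - log T0) / 4)
    (log T1 - log T0 + 1) hξ hδ hδ2 hε hT (by positivity) (by positivity)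
  obtain ⟨s0, hs0, h⟩ := conclude w ξ δ ε T0 T1 C0 (log T1 - log T0) hδ hℓ hC0 q0 hq0
  refine ⟨2 * C0, by positivity, s0, hs0, fun s hs hss β hβ => ?_⟩
  refine h s hs hss (fun t => β * Real.exp (s * t)) ((log T0 - log β) / s) (fun a => ?_)
    (fun a h1 h2 => ?_) (fun a a' haa h1 => ?_)
  · rw [div_le_iff₀ hs, ← add_div, le_div_iff₀ hs]
    have h3 : 0 < β * Real.exp (s * a) := by positivity
    have h4 : log (β * Real.exp (s * a)) = log β + s * a := by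
      rw [Real.log_mul hβ.ne' (Real.exp_pos _).ne', Real.log_exp]
    have h5 : T0 ≤ β * Real.exp (s * a) ↔ log T0 ≤ log β + s * a := by
      rw [← h4, Real.log_le_log_iff hT00 h3]
    have h6 : β * Real.exp (s * a) ≤ T1 ↔ log β + s * a ≤ log T1 := by
      rw [← h4, Real.log_le_log_iff h3 hT10]
    rw [h5, h6]
    constructor
    · rintro ⟨h1, h2⟩
      exact ⟨by linarith, by linarith⟩
    · rintro ⟨h1, h2⟩
      exact ⟨by linarith, by linarith⟩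
  · have h5 := (hFE 1 a (Real.exp s) le_rfl (by
      rw [← Real.exp_zero]
      exact Real.exp_lt_exp.2 hs)).scale β
    have h6 : (fun t : ℝ => β * Real.exp s ^ (t / ((1 : ℕ) : ℝ))) =
        (fun t => β * Real.exp (s * t)) := by
      funext t
      rw [Nat.cast_one, div_one, ← Real.exp_mul]
    rw [h6] at h5
    refine ⟨_, _, h5, ?_, ?_⟩
    · rw [Nat.cast_one, Real.log_exp]
    · rw [Nat.cast_one, Real.log_exp]
      exact div_le_div_of_nonneg_right (by linarith) hs.le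
  · show s * (a' - a) ≤ β * Real.exp (s * a') - β * Real.exp (s * a)
    have h3 : β * Real.exp (s * a') = β * Real.exp (s * a) * Real.exp (s * (a' - a)) := by
      rw [mul_assoc, ← Real.exp_add]
      congr 2
      ring
    have h4 := Real.add_one_le_exp (s * (a' - a))
    have h5 : 0 ≤ s * (a' - a) := mul_nonneg hs.le (by linarith)
    have h6 : 1 ≤ β * Real.exp (s * a) := hT.le.trans h1
    rw [h3]
    nlinarith

end Pool.Agent.N586.KO
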