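import Pool.Agent.N586.KO.Stm
import Pool.Agent.N586.AN.Pair
import Pool.Agent.N586.RT.Hat

/-!
# Project KO, KO/4: the bilinear sum at one point (helper296)
-/

set_option autoImplicit false

namespace Pool.Agent.N586.KO

open Finset Real Filter
open Pool.Agent.Y933.KD (e norm_e e_add)
open Pool.Agent.Y957.VK (TT)
open Pool.Agent.Y933.KD.VdC (ev_le)
open Pool.Agent.N586.RT (logpow log_ge ph ph_eq norm_e_sub)
open Pool.Agent.N586.AN (pair_TT pair_tail)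

lemma core_evlog (K s ε : ℝ) (hε : 0 < ε) :
    ∀ᶠ q : ℕ in atTop, K * (log q) ^ s ≤ (q : ℝ) ^ ε := by
  have h1 : (fun x : ℝ => (log x) ^ s) =o[atTop] fun x => x ^ ε :=
    isLittleO_log_rpow_rpow_atTop s hε
  have h2 := (h1.const_mul_left K).bound (by norm_num : (0 : ℝ) < 1)
  have h3 := tendsto_natCast_atTop_atTop (R := ℝ) |>.eventually h2
  filter_upwards [h3] with q hq
  rw [one_mul, Real.norm_eq_abs, Real.norm_eq_abs,
    abs_of_nonneg (Real.rpow_nonneg (Nat.cast_nonneg q) ε)] at hq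
  exact (le_abs_self _).trans hq

/-- replacing the phase by its Taylor polynomial -/
lemma core_pair {g h : ℕ → ℝ} {A X : ℝ} {r M : ℕ} (hA : 0 ≤ A) (hX : 0 < X)
    (hz : 2 * (M : ℝ) ^ 2 / X ≤ 1 / 2) (hg : ∀ k, |g k| ≤ A * (2 / X) ^ k)
    (hs : ∀ n : ℕ, HasSum (fun k => g k * (n : ℝ) ^ k) (h n)) :
    ‖∑ x ∈ Finset.Icc 1 M, ∑ y ∈ Finset.Icc 1 M, e (h (x * y))‖ ≤
      ‖TT r M g‖ + (M : ℝ) ^ 2 * (2 * π * (2 * A * (2 * (M : ℝ) ^ 2 / X) ^ (r + 1))) := by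
  have happ : ∀ x ∈ Finset.Icc 1 M, ∀ y ∈ Finset.Icc 1 M,
      ‖e (h (x * y)) - e (g 0) * ph r g ((x : ℝ) * y)‖ ≤
        2 * π * (2 * A * (2 * (M : ℝ) ^ 2 / X) ^ (r + 1)) := by
    intro x hx y hy
    rw [Finset.mem_Icc] at hx hy
    have hxM : (x : ℝ) ≤ M := by exact_mod_cast hx.2
    have hyM : (y : ℝ) ≤ M := by exact_mod_cast hy.2
    have hn1 : ((x * y : ℕ) : ℝ) ≤ (M : ℝ) ^ 2 := by
      push_cast
      rw [sq]
      exact mul_le_mul hxM hyM (Nat.cast_nonneg _) (Nat.cast_nonneg _)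
    have hz2 : 4 * ((x * y : ℕ) : ℝ) / (2 * X) ≤ 2 * (M : ℝ) ^ 2 / X := by
      rw [div_le_div_iff₀ (by positivity) hX]
      nlinarith
    have hs' : HasSum (fun k => g (k + 1) * ((x * y : ℕ) : ℝ) ^ (k + 1)) (h (x * y) - g 0) := by
      have h1 := (hasSum_nat_add_iff' 1).2 (hs (x * y))
      simpa using h1
    have h1 := pair_tail (r := r) (A := A / 2) (X := 2 * X) (by linarith) (by linarith)
      (Nat.cast_nonneg (x * y)) (hz2.trans hz) (fun k _ => by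
        have h2 := hg k
        have h3 : 4 / (2 * X) = 2 / X := by field_simp; norm_num
        rw [h3]
        linarith) hs'
    have h2 : e (g 0) * ph r g ((x : ℝ) * y) =
        e (g 0 + ∑ j ∈ Finset.Icc 1 r, g j * ((x * y : ℕ) : ℝ) ^ j) := by
      rw [e_add, ph_eq]
      push_cast
      rfl
    rw [h2]
    refine (norm_e_sub _ _).trans ?_
    have h4 : h (x * y) - (g 0 + ∑ j ∈ Finset.Icc 1 r, g j * ((x * y : ℕ) : ℝ) ^ j) =
        h (x * y) - g 0 - ∑ j ∈ Finset.Icc 1 r, g j * ((x * y : ℕ) : ℝ) ^ j := by ring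
    rw [h4]
    calc 2 * π * |h (x * y) - g 0 - ∑ j ∈ Finset.Icc 1 r, g j * ((x * y : ℕ) : ℝ) ^ j| ≤
        2 * π * (4 * (A / 2) * (4 * ((x * y : ℕ) : ℝ) / (2 * X)) ^ (r + 1)) := by gcongr
      _ ≤ 2 * π * (4 * (A / 2) * (2 * (M : ℝ) ^ 2 / X) ^ (r + 1)) := by gcongr
      _ = _ := by ring
  have hdiff : ‖∑ x ∈ Finset.Icc 1 M, ∑ y ∈ Finset.Icc 1 M, e (h (x * y)) - e (g 0) * TT r M g‖ ≤
      (M : ℝ) ^ 2 * (2 * π * (2 * A * (2 * (M : ℝ) ^ 2 / X) ^ (r + 1))) := by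
    rw [pair_TT, Finset.mul_sum, ← Finset.sum_sub_distrib]
    refine (norm_sum_le _ _).trans ?_
    calc _ ≤ ∑ _x ∈ Finset.Icc 1 M, (M : ℝ) *
          (2 * π * (2 * A * (2 * (M : ℝ) ^ 2 / X) ^ (r + 1))) := by
          refine Finset.sum_le_sum fun x hx => ?_
          rw [Finset.mul_sum, ← Finset.sum_sub_distrib]
          refine (norm_sum_le _ _).trans ?_
          refine (Finset.sum_le_sum fun y hy => happ x hx y hy).trans (le_of_eq ?_)
          rw [Finset.sum_const, Nat.card_Icc, Nat.add_sub_cancel, nsmul_eq_mul]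
      _ = _ := by
          rw [Finset.sum_const, Nat.card_Icc, Nat.add_sub_cancel, nsmul_eq_mul]
          ring
  have h1 := norm_add_le (∑ x ∈ Finset.Icc 1 M, ∑ y ∈ Finset.Icc 1 M, e (h (x * y)) -
      e (g 0) * TT r M g) (e (g 0) * TT r M g)
  rw [sub_add_cancel, norm_mul, norm_e, one_mul] at h1
  linarith

/-- **K4**: the bilinear sum at one point -/
theorem core (h1 : S_TN4) (h3 : S_CO) : S_CORE := by
  intro w K ξ δ β T0 T1 hξ hδ hβ hδβ hT0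
  have hlT0 : 0 < log T0 := Real.log_pos hT0
  obtain ⟨B, hB⟩ : ∃ B : ℝ, B = 2 * (1 + |log T1|) := ⟨_, rfl⟩
  have hB2 : 2 ≤ B := by
    rw [hB]
    have := abs_nonneg (log T1)
    linarith
  obtain ⟨c, hc0, C, hC0, hC⟩ := h1
  obtain ⟨c1, hc1, C1, hC1, L0, hL0⟩ := h3 w K δ T0 T1 (4 * B) hδ (by linarith) hT0
  have hξ0 : 0 < |ξ| := abs_pos.2 hξ
  refine ⟨1 + 3 / log T0, by positivity, ?_⟩
  obtain ⟨q1, hq1⟩ := eventually_atTop.1 ((((((((((((ev_le 16 (1 / 1000) (by norm_num)).and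
    (core_evlog (8 * B) 1 (1 / 1000) (by norm_num))).and
    (core_evlog (1 / c1) (1 / 2) (1 / 1000) (by norm_num))).and
    (ev_le C1 (1 / 1000) (by norm_num))).and
    (core_evlog 1 (1 + δ) (1 / 1000) (by norm_num))).and
    (log_ge (10 * |log (|ξ|)|))).and
    (log_ge L0)).and
    (log_ge 1000)).and
    (logpow (by linarith : β < 1 - 2 * δ) (16 * B ^ 2 / c))).and
    (logpow hβ (C + 16))).and
    (logpow (by linarith : β < 1) 2)).and (eventually_ge_atTop 2))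
  refine ⟨q1, ?_⟩
  intro q hq g a Y W hEx hx0 hx1 hY0 hY1 l n n' hl hn' hA0 hnL hpl
  obtain ⟨⟨⟨⟨⟨⟨⟨⟨⟨⟨⟨hbig, hb2⟩, hb3⟩, hb4⟩, hb5⟩, hb6⟩, hb7⟩, hb8⟩, hb9⟩, hb10⟩, hb11⟩, hq2⟩ := hq1 q hq
  have hqR : (2 : ℝ) ≤ q := by exact_mod_cast hq2
  have hq0 : (0 : ℝ) < q := by linarith
  have hq1R : (1 : ℝ) ≤ q := by linarith
  obtain ⟨L, hL⟩ : ∃ L : ℝ, L = log q := ⟨_, rfl⟩
  rw [← hL] at hb2 hb3 hb5 hb6 hb7 hb8 hb9 hb10 hb11 hA0 hnL hpl ⊢
  rw [Real.rpow_one] at hb2 hb11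
  rw [Real.rpow_zero, mul_one] at hb10
  rw [one_mul] at hb5
  have hLp : 0 < L := by linarith
  have hexp : ∀ x : ℝ, (q : ℝ) ^ x = Real.exp (x * L) := by
    intro x
    rw [Real.rpow_def_of_pos hq0, hL, mul_comm]
  have hadd : ∀ x y : ℝ, (q : ℝ) ^ x * (q : ℝ) ^ y = (q : ℝ) ^ (x + y) :=
    fun x y => (Real.rpow_add hq0 x y).symm
  have hmono : ∀ x y : ℝ, x ≤ y → (q : ℝ) ^ x ≤ (q : ℝ) ^ y := fun x y hxy =>
    Real.rpow_le_rpow_of_exponent_le hq1R hxy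
  have hpos : ∀ x : ℝ, 0 < (q : ℝ) ^ x := fun x => Real.rpow_pos_of_pos hq0 x
  -- the exponents
  have hLn' : L ≤ n' := by
    have h4 : L ≤ (1 + 3 / log T0) * L := by
      have : 0 ≤ 3 / log T0 * L := by positivity
      linarith
    exact h4.trans hA0
  have hn'n : (n' : ℝ) ≤ n := by exact_mod_cast hn'.le
  have hLn : L ≤ n := hLn'.trans hn'n
  have hn0 : (0 : ℝ) < n := by linarith
  have hn1 : (1 : ℝ) ≤ n := by linarith
  have hnq : (n : ℝ) ≤ (q : ℝ) ^ (1 / 1000 : ℝ) := hnL.trans hb5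
  -- the scale
  have hYp : 0 < Y := lt_of_lt_of_le (hpos _) hY0
  obtain ⟨X, hX⟩ : ∃ X : ℝ, X = Y / n := ⟨_, rfl⟩
  have hX0 : 0 < X := by rw [hX]; positivity
  have hXlo : (q : ℝ) ^ (989 / 1000 : ℝ) ≤ X := by
    rw [hX, le_div_iff₀ hn0]
    calc (q : ℝ) ^ (989 / 1000 : ℝ) * n ≤ (q : ℝ) ^ (989 / 1000 : ℝ) * (q : ℝ) ^ (1 / 1000 : ℝ) := by
          gcongr
      _ = (q : ℝ) ^ (99 / 100 : ℝ) := by rw [hadd]; norm_num
      _ ≤ _ := hY0
  have hXhi : X ≤ (q : ℝ) ^ (101 / 100 : ℝ) := by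
    rw [hX, div_le_iff₀ hn0]
    calc Y ≤ (q : ℝ) ^ (101 / 100 : ℝ) := hY1
      _ = (q : ℝ) ^ (101 / 100 : ℝ) * 1 := (mul_one _).symm
      _ ≤ _ := by gcongr
  obtain ⟨N, hN⟩ : ∃ N : ℕ, N = ⌊X⌋₊ := ⟨_, rfl⟩
  have hX4 : 16 ≤ X := by
    have := hmono (1 / 1000) (989 / 1000) (by norm_num)
    linarith
  have hNX : (N : ℝ) ≤ X := by
    rw [hN]
    exact Nat.floor_le hX0.le
  have hXN : X ≤ 2 * N := by
    have h1 := Nat.lt_floor_add_one X
    rw [← hN] at h1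
    linarith
  have hN2 : 2 ≤ N := by
    have : (2 : ℝ) ≤ N := by linarith
    exact_mod_cast this
  have hNR : (2 : ℝ) ≤ N := by exact_mod_cast hN2
  have hN0 : (0 : ℝ) < N := by linarith
  have hN1 : (1 : ℝ) ≤ N := by linarith
  have hNlo : (q : ℝ) ^ (988 / 1000 : ℝ) ≤ N := by
    have h1 : (q : ℝ) ^ (988 / 1000 : ℝ) * 2 ≤ (q : ℝ) ^ (989 / 1000 : ℝ) := by
      calc (q : ℝ) ^ (988 / 1000 : ℝ) * 2 ≤ (q : ℝ) ^ (988 / 1000 : ℝ) * (q : ℝ) ^ (1 / 1000 : ℝ) := by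
            gcongr
            linarith
        _ = _ := by rw [hadd]; norm_num
    linarith
  have hNhi : (N : ℝ) ≤ (q : ℝ) ^ (101 / 100 : ℝ) := hNX.trans hXhi
  have hlogN : 988 / 1000 * L ≤ log N := by
    have h1 : log ((q : ℝ) ^ (988 / 1000 : ℝ)) ≤ log N := Real.log_le_log (by positivity) hNlo
    rwa [Real.log_rpow hq0, ← hL] at h1
  have hlogN' : log N ≤ 101 / 100 * L := by
    have h1 : log (N : ℝ) ≤ log ((q : ℝ) ^ (101 / 100 : ℝ)) := Real.log_le_log hN0 hNhi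
    rwa [Real.log_rpow hq0, ← hL] at h1
  have hlogN0 : 0 < log (N : ℝ) := by
    have : 0 < 988 / 1000 * L := by positivity
    linarith
  -- the length
  obtain ⟨M, hM⟩ : ∃ M : ℕ, M = MM q := ⟨_, rfl⟩
  rw [← hM]
  have hMhi : (M : ℝ) ≤ (q : ℝ) ^ (39 / 100 : ℝ) := by
    rw [hM]
    exact Nat.floor_le (by positivity)
  have hMlo : (q : ℝ) ^ (39 / 100 : ℝ) ≤ 2 * M := by
    have h1 := Nat.lt_floor_add_one ((q : ℝ) ^ (39 / 100 : ℝ))
    have h2 : (⌊(q : ℝ) ^ (39 / 100 : ℝ)⌋₊ : ℝ) = M := by rw [hM]; rfl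
    rw [h2] at h1
    have := hmono (1 / 1000) (39 / 100) (by norm_num)
    linarith
  have hM1R : (1 : ℝ) ≤ M := by
    have := hmono (1 / 1000) (39 / 100) (by norm_num)
    linarith
  have hM1 : 1 ≤ M := by exact_mod_cast hM1R
  -- the amplitude
  obtain ⟨x, hx⟩ : ∃ x : ℝ, x = g a := ⟨_, rfl⟩
  rw [← hx] at hx0 hx1 hpl
  have hxp : 0 < x := by linarith
  have hlx0 : log T0 ≤ log x := Real.log_le_log (by linarith) hx0
  have hlx1 : log x ≤ |log T1| := (Real.log_le_log hxp hx1).trans (le_abs_self _)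
  obtain ⟨A, hA⟩ : ∃ A : ℝ, A = |ξ| * x ^ n := ⟨_, rfl⟩
  have hAp : 0 < A := by rw [hA]; positivity
  have hlogA : log A = log |ξ| + n * log x := by
    rw [hA, Real.log_mul hξ0.ne' (by positivity), Real.log_pow]
  obtain ⟨κ, hκ⟩ : ∃ κ : ℝ, κ = log A / log N := ⟨_, rfl⟩
  have hκA : (N : ℝ) ^ κ = A := by
    rw [Real.rpow_def_of_pos hN0, hκ, mul_div_cancel₀ _ hlogN0.ne', Real.exp_log hAp]
  have hlξ := abs_le.1 (show |log (|ξ|)| ≤ L / 10 by linarith)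
  have hκ2 : 2 ≤ κ := by
    rw [hκ, le_div_iff₀ hlogN0, hlogA]
    have h4 : 3 * L ≤ n * log x := by
      calc 3 * L = 3 / log T0 * L * log T0 := by field_simp
        _ ≤ ((1 + 3 / log T0) * L) * log T0 := by
            refine mul_le_mul_of_nonneg_right ?_ hlT0.le
            linarith
        _ ≤ n * log x := mul_le_mul (hA0.trans hn'n) hlx0 hlT0.le hn0.le
    linarith [hlξ.1]
  have hκn : κ ≤ B * n / L := by
    rw [hκ, div_le_div_iff₀ hlogN0 hLp, hlogA]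
    have h4 : n * log x ≤ n * |log T1| := mul_le_mul_of_nonneg_left hlx1 hn0.le
    have h5 : log |ξ| + n * log x ≤ n * (1 / 10 + |log T1|) := by linarith [hlξ.2]
    have h6 : 0 ≤ |log T1| := abs_nonneg _
    calc (log |ξ| + n * log x) * L ≤ n * (1 / 10 + |log T1|) * L := by gcongr
      _ ≤ n * (1 + |log T1|) * (2 * (988 / 1000 * L)) := by
          have h7 : 0 ≤ n * L := by positivity
          have h8 : 0 ≤ n * L * |log T1| := by positivity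
          nlinarith
      _ ≤ n * (1 + |log T1|) * (2 * log N) := by gcongr
      _ = B * n * log N := by rw [hB]; ring
  have hnLδ : (n : ℝ) / L ≤ L ^ δ := by
    rw [div_le_iff₀ hLp]
    calc (n : ℝ) ≤ L ^ (1 + δ) := hnL
      _ = L ^ δ * L := by rw [add_comm, Real.rpow_add hLp, Real.rpow_one]
  have hκδ : κ ≤ B * L ^ δ := by
    calc κ ≤ B * n / L := hκn
      _ = B * (n / L) := by ring
      _ ≤ B * L ^ δ := by gcongr
  have hLδ1 : 1 ≤ L ^ δ := Real.one_le_rpow (by linarith) hδ.le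
  have hδ1 : L ^ δ ≤ L := by
    calc L ^ δ ≤ L ^ (1 : ℝ) := Real.rpow_le_rpow_of_exponent_le (by linarith) (by linarith)
      _ = L := Real.rpow_one L
  -- the coefficients
  obtain ⟨F1, F2, F3⟩ := hL0 L hb7 g a Y W hEx hYp (by rw [← hx]; exact hx0)
    (by rw [← hx]; exact hx1) ξ l n n' hl hn' hLn' (by rw [← hx]; exact hpl)
  rw [← hx] at F1 F2 F3
  obtain ⟨b, hb⟩ : ∃ b : ℕ → ℝ, b = cf w ξ l n n' x W := ⟨_, rfl⟩
  rw [← hb] at F3
  have G2 : ∀ k : ℕ, |b k| ≤ (C1 * A) * (2 / X) ^ k := by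
    intro k
    have h4 := F2 k
    have h5 : 2 * (n : ℝ) / Y = 2 / X := by rw [hX]; field_simp
    rwa [h5, ← hA, ← hb] at h4
  have G1 : ∀ k : ℕ, 1 ≤ k → (k : ℝ) ≤ 4 * κ →
      c1 * L ^ (-(1 / 2) : ℝ) * A * (1 / (k * X)) ^ k ≤ |b k| := by
    intro k hk hk4
    have h4 := F1 k hk (hk4.trans (by linarith)) (hk4.trans (by
      rw [show 4 * B * (n : ℝ) / L = 4 * (B * n / L) by ring]
      linarith))
    have hk0 : (0 : ℝ) < k := by exact_mod_cast hk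
    have h5 : (n : ℝ) / (k * Y) = 1 / (k * X) := by rw [hX]; field_simp
    rwa [h5, ← hA, ← hb] at h4
  have hκp : 0 < κ := by linarith
  have hN20 : (q : ℝ) ^ (5 / 1000 * κ : ℝ) ≤ (N : ℝ) ^ (κ / 20 : ℝ) := by
    calc (q : ℝ) ^ (5 / 1000 * κ : ℝ) ≤ (q : ℝ) ^ (988 / 1000 * (κ / 20) : ℝ) := by
          apply hmono
          linarith
      _ = ((q : ℝ) ^ (988 / 1000 : ℝ)) ^ (κ / 20 : ℝ) := Real.rpow_mul hq0.le _ _
      _ ≤ (N : ℝ) ^ (κ / 20 : ℝ) := Real.rpow_le_rpow (by positivity) hNlo (by positivity)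
  -- powers with base at most `q ^ (1 / 1000)`
  have hpow : ∀ (G : ℝ) (k : ℕ), 0 ≤ G → G ≤ (q : ℝ) ^ (1 / 1000 : ℝ) → (k : ℝ) ≤ 4 * κ →
      (q : ℝ) ^ (1 / 1000 : ℝ) * G ^ k ≤ (N : ℝ) ^ (κ / 20 : ℝ) := by
    intro G k hG0 hG hk
    refine le_trans ?_ hN20
    calc (q : ℝ) ^ (1 / 1000 : ℝ) * G ^ k ≤
        (q : ℝ) ^ (1 / 1000 : ℝ) * ((q : ℝ) ^ (1 / 1000 : ℝ)) ^ k := by gcongr
      _ = (q : ℝ) ^ (1 / 1000 + 1 / 1000 * k : ℝ) := by
          rw [← Real.rpow_natCast, ← Real.rpow_mul hq0.le, hadd]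
      _ ≤ _ := by
          apply hmono
          linarith
  have key := hC N M κ b hN2 hκ2 hM1 ?_ ?_ ?_
  · -- the end
    obtain ⟨r, hr⟩ : ∃ r : ℕ, r = ⌈5 * κ⌉₊ + 5 := ⟨_, rfl⟩
    rw [← hr] at key
    have hr1 : 5 * κ + 6 ≤ ((r + 1 : ℕ) : ℝ) := by
      rw [hr]
      push_cast
      have := Nat.le_ceil (5 * κ)
      linarith
    have hMX : 2 * (M : ℝ) ^ 2 / X ≤ (q : ℝ) ^ (-(208 / 1000) : ℝ) := by
      rw [div_le_iff₀ hX0]
      calc 2 * (M : ℝ) ^ 2 ≤ (q : ℝ) ^ (1 / 1000 : ℝ) * ((q : ℝ) ^ (39 / 100 : ℝ)) ^ 2 := by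
            gcongr
            linarith
        _ = (q : ℝ) ^ (781 / 1000 : ℝ) := by
            rw [sq, hadd, hadd]
            norm_num
        _ = (q : ℝ) ^ (-(208 / 1000) : ℝ) * (q : ℝ) ^ (989 / 1000 : ℝ) := by
            rw [hadd]
            norm_num
        _ ≤ _ := by gcongr
    have hMX2 : 2 * (M : ℝ) ^ 2 / X ≤ 1 / 2 := by
      refine hMX.trans ?_
      rw [Real.rpow_neg hq0.le, inv_le_comm₀ (hpos _) (by norm_num)]
      have := hmono (1 / 1000) (208 / 1000) (by norm_num)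
      linarith
    have hpair := core_pair (g := b) (h := fun m : ℕ => Fph w ξ l n n' (g (a + (m : ℝ))))
      (A := C1 * A) (X := X) (r := r) (M := M) (by positivity) hX0 hMX2 G2
      (fun m => F3 m (Nat.cast_nonneg m))
    refine hpair.trans ?_
    have htail : 2 * π * (2 * (C1 * A) * (2 * (M : ℝ) ^ 2 / X) ^ (r + 1)) ≤
        16 * Real.exp (-(2 * L ^ β)) := by
      have hpi : 2 * π * 2 ≤ 16 := by
        have := Real.pi_le_four
        linarith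
      have hA1 : A ≤ (q : ℝ) ^ (101 / 100 * κ : ℝ) := by
        rw [← hκA, Real.rpow_mul hq0.le]
        exact Real.rpow_le_rpow hN0.le hNhi hκp.le
      have hM3 : (2 * (M : ℝ) ^ 2 / X) ^ (r + 1) ≤ (q : ℝ) ^ (-(208 / 1000) * (5 * κ + 6) : ℝ) := by
        calc (2 * (M : ℝ) ^ 2 / X) ^ (r + 1) ≤ ((q : ℝ) ^ (-(208 / 1000) : ℝ)) ^ (r + 1) := by
              gcongr
          _ = (q : ℝ) ^ (-(208 / 1000) * ((r + 1 : ℕ) : ℝ) : ℝ) := by
              rw [← Real.rpow_natCast, ← Real.rpow_mul hq0.le]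
          _ ≤ _ := by
              apply hmono
              linarith
      calc 2 * π * (2 * (C1 * A) * (2 * (M : ℝ) ^ 2 / X) ^ (r + 1)) =
          (2 * π * 2) * (C1 * A * (2 * (M : ℝ) ^ 2 / X) ^ (r + 1)) := by ring
        _ ≤ 16 * ((q : ℝ) ^ (1 / 1000 : ℝ) * (q : ℝ) ^ (101 / 100 * κ : ℝ) *
            (q : ℝ) ^ (-(208 / 1000) * (5 * κ + 6) : ℝ)) := by gcongr
        _ = 16 * (q : ℝ) ^ (1 / 1000 + 101 / 100 * κ + -(208 / 1000) * (5 * κ + 6) : ℝ) := by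
            rw [hadd, hadd]
        _ ≤ 16 * (q : ℝ) ^ (-1 : ℝ) := by
            have := hmono (1 / 1000 + 101 / 100 * κ + -(208 / 1000) * (5 * κ + 6)) (-1) (by linarith)
            linarith
        _ = 16 * Real.exp (-L) := by rw [hexp]; norm_num
        _ ≤ _ := by
            have := Real.exp_le_exp.2 (show -L ≤ -(2 * L ^ β) by linarith)
            linarith
    have hmain : (N : ℝ) ^ (-(c / (1 + κ) ^ 2) : ℝ) ≤ Real.exp (-(2 * L ^ β)) := by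
      rw [Real.rpow_def_of_pos hN0]
      apply Real.exp_le_exp.2
      have h5 : 1 + κ ≤ 2 * B * L ^ δ := by
        have : 1 ≤ B * L ^ δ := by nlinarith
        linarith
      have h8 : (1 + κ) ^ 2 ≤ 4 * B ^ 2 * L ^ (2 * δ) := by
        calc (1 + κ) ^ 2 ≤ (2 * B * L ^ δ) ^ 2 := by gcongr
          _ = 4 * B ^ 2 * (L ^ δ) ^ 2 := by ring
          _ = 4 * B ^ 2 * L ^ (2 * δ) := by
              rw [← Real.rpow_natCast (L ^ δ) 2, ← Real.rpow_mul hLp.le, Nat.cast_ofNat, mul_comm δ 2]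
      have h9 : L = L ^ (1 - 2 * δ) * L ^ (2 * δ) := by
        rw [← Real.rpow_add hLp]
        norm_num
      have h10 : 2 * L ^ β ≤ log N * (c / (1 + κ) ^ 2) := by
        rw [mul_div_assoc', le_div_iff₀ (by positivity)]
        have hb9' : 16 * B ^ 2 * L ^ β ≤ c * L ^ (1 - 2 * δ) := by
          have h11 := mul_le_mul_of_nonneg_left hb9 hc0.le
          calc 16 * B ^ 2 * L ^ β = c * (16 * B ^ 2 / c * L ^ β) := by field_simp
            _ ≤ _ := h11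
        calc 2 * L ^ β * (1 + κ) ^ 2 ≤ 2 * L ^ β * (4 * B ^ 2 * L ^ (2 * δ)) := by gcongr
          _ = (16 * B ^ 2 * L ^ β) * L ^ (2 * δ) / 2 := by ring
          _ ≤ (c * L ^ (1 - 2 * δ)) * L ^ (2 * δ) / 2 := by gcongr
          _ = c * (L ^ (1 - 2 * δ) * L ^ (2 * δ)) / 2 := by ring
          _ = c * L / 2 := by rw [← h9]
          _ ≤ log N * c := by nlinarith
      linarith
    calc ‖TT r M b‖ + (M : ℝ) ^ 2 * (2 * π * (2 * (C1 * A) * (2 * (M : ℝ) ^ 2 / X) ^ (r + 1))) ≤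
        C * (M : ℝ) ^ 2 * Real.exp (-(2 * L ^ β)) + (M : ℝ) ^ 2 *
          (16 * Real.exp (-(2 * L ^ β))) := by
          refine add_le_add (key.trans ?_) ?_
          · gcongr
          · gcongr
      _ = (M : ℝ) ^ 2 * ((C + 16) * Real.exp (-(2 * L ^ β))) := by ring
      _ ≤ (M : ℝ) ^ 2 * (Real.exp (L ^ β) * Real.exp (-(2 * L ^ β))) := by
          have h10 : C + 16 ≤ Real.exp (L ^ β) := by
            have := Real.add_one_le_exp (L ^ β)
            linarith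
          gcongr
      _ = (M : ℝ) ^ 2 * Real.exp (-(L ^ β)) := by
          rw [← Real.exp_add]
          ring_nf
  · calc (N : ℝ) ^ (19 / 50 : ℝ) ≤ ((q : ℝ) ^ (101 / 100 : ℝ)) ^ (19 / 50 : ℝ) :=
          Real.rpow_le_rpow hN0.le hNhi (by norm_num)
      _ = (q : ℝ) ^ (101 / 100 * (19 / 50) : ℝ) := (Real.rpow_mul hq0.le _ _).symm
      _ ≤ (q : ℝ) ^ (39 / 100 : ℝ) := hmono _ _ (by norm_num)
      _ ≤ 2 * M := hMlo
  · calc (M : ℝ) ≤ (q : ℝ) ^ (39 / 100 : ℝ) := hMhi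
      _ ≤ (q : ℝ) ^ (988 / 1000 * (2 / 5) : ℝ) := hmono _ _ (by norm_num)
      _ = ((q : ℝ) ^ (988 / 1000 : ℝ)) ^ (2 / 5 : ℝ) := Real.rpow_mul hq0.le _ _
      _ ≤ (N : ℝ) ^ (2 / 5 : ℝ) := Real.rpow_le_rpow (by positivity) hNlo (by norm_num)
  · intro j hj hj2 hj3
    rw [Finset.mem_Icc] at hj
    have hj0 : (0 : ℝ) < j := by exact_mod_cast hj.1
    have hj4 : (j : ℝ) ≤ 4 * κ := by linarith
    have hjB : 2 * (j : ℝ) ≤ (q : ℝ) ^ (1 / 1000 : ℝ) := by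
      calc 2 * (j : ℝ) ≤ 8 * (B * L ^ δ) := by linarith
        _ ≤ 8 * (B * L) := by gcongr
        _ = 8 * B * L := by ring
        _ ≤ _ := hb2
    constructor
    · refine le_trans ?_ (G1 j hj.1 hj4)
      have h4 : (N : ℝ) ^ (κ - κ / 20 - j : ℝ) = A / (N : ℝ) ^ (κ / 20 : ℝ) / (N : ℝ) ^ j := by
        rw [Real.rpow_sub hN0, Real.rpow_sub hN0, hκA, Real.rpow_natCast]
      have h5 := hpow (2 * j) j (by positivity) hjB hj4
      have h6 : L ^ (1 / 2 : ℝ) ≤ c1 * (q : ℝ) ^ (1 / 1000 : ℝ) := by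
        rw [one_div, inv_mul_le_iff₀ hc1] at hb3
        exact hb3
      have h7 : L ^ (-(1 / 2) : ℝ) = 1 / L ^ (1 / 2 : ℝ) := by
        rw [Real.rpow_neg hLp.le]
        exact (one_div _).symm
      have hLh : 0 < L ^ (1 / 2 : ℝ) := by positivity
      rw [h4, h7]
      calc A / (N : ℝ) ^ (κ / 20 : ℝ) / (N : ℝ) ^ j ≤
          A / ((q : ℝ) ^ (1 / 1000 : ℝ) * (2 * j) ^ j) / (N : ℝ) ^ j := by gcongr
        _ = (1 / (q : ℝ) ^ (1 / 1000 : ℝ)) * A * (1 / (j * (2 * N))) ^ j := by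
            have h9 : (1 / ((j : ℝ) * (2 * N))) ^ j = 1 / ((2 * (j : ℝ)) ^ j * (N : ℝ) ^ j) := by
              rw [one_div_pow, ← mul_pow]
              congr 2
              ring
            have h10 : ∀ A Q P R : ℝ, A / (Q * P) / R = (1 / Q) * A * (1 / (P * R)) := by
              intro A Q P R
              simp only [div_eq_mul_inv, mul_inv]
              ring
            rw [h9, h10]
        _ ≤ (c1 * (1 / L ^ (1 / 2 : ℝ))) * A * (1 / (j * X)) ^ j := by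
            have h8 : 1 / (q : ℝ) ^ (1 / 1000 : ℝ) ≤ c1 * (1 / L ^ (1 / 2 : ℝ)) := by
              rw [mul_one_div, div_le_div_iff₀ (hpos _) hLh, one_mul]
              exact h6
            gcongr
    · refine (G2 j).trans ?_
      have h4 : (N : ℝ) ^ (κ + κ / 20 - j : ℝ) = A * (N : ℝ) ^ (κ / 20 : ℝ) / (N : ℝ) ^ j := by
        rw [Real.rpow_sub hN0, Real.rpow_add hN0, hκA, Real.rpow_natCast]
      have h5 := hpow 2 j (by norm_num) (by linarith) hj4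
      rw [h4]
      calc C1 * A * (2 / X) ^ j ≤ (q : ℝ) ^ (1 / 1000 : ℝ) * A * (2 / N) ^ j := by gcongr
        _ = A * ((q : ℝ) ^ (1 / 1000 : ℝ) * 2 ^ j) / (N : ℝ) ^ j := by
            rw [div_pow]
            ring
        _ ≤ _ := by gcongr

end Pool.Agent.N586.KO
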