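import Pool.Agent.N586.KO.Stm

/-!
# Project KO, K5: from one point to the exponential sum over a (worker: helper284)
-/

set_option autoImplicit false

namespace Pool.Agent.N586.KO

open Finset Filter
open Pool.Agent.Y933.KD (e)
open Pool.Agent.Y957.VK (TT)

lemma Exps_norm_e (x : ℝ) : ‖e x‖ = 1 := by
  unfold Pool.Agent.Y933.KD.e
  rw [Complex.norm_exp]
  simp

lemma Exps_shift (G : ℝ → ℂ) (hG : ∀ t, ‖G t‖ = 1) (A B m : ℕ) :
    ‖∑ a ∈ Icc A B, G a - ∑ a ∈ Icc A B, G (a + (m : ℝ))‖ ≤ 2 * m := by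
  have h1 : ∑ a ∈ Icc A B, G (a + (m : ℝ)) = ∑ a ∈ Icc (A + m) (B + m), G a := by
    apply Finset.sum_bij (fun a _ => a + m)
    · intro a ha
      rw [mem_Icc] at ha ⊢
      omega
    · intro a _ b _ hab
      omega
    · intro b hb
      rw [mem_Icc] at hb
      refine ⟨b - m, ?_, by omega⟩
      rw [mem_Icc]
      omega
    · intro a _
      push_cast
      rfl
  rw [h1, ← Finset.sum_sdiff_sub_sum_sdiff]
  have hc : ∀ s : Finset ℕ, ‖∑ a ∈ s, G a‖ ≤ s.card := by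
    intro s
    refine (norm_sum_le _ _).trans ?_
    simp [hG]
  have h2 : (Icc A B \ Icc (A + m) (B + m)).card ≤ m := by
    have : Icc A B \ Icc (A + m) (B + m) ⊆ Ico A (A + m) := by
      intro a ha
      rw [Finset.mem_sdiff, mem_Icc, mem_Icc] at ha
      rw [mem_Ico]
      omega
    refine (card_le_card this).trans ?_
    rw [Nat.card_Ico]
    omega
  have h3 : (Icc (A + m) (B + m) \ Icc A B).card ≤ m := by
    have : Icc (A + m) (B + m) \ Icc A B ⊆ Ioc B (B + m) := by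
      intro a ha
      rw [Finset.mem_sdiff, mem_Icc, mem_Icc] at ha
      rw [mem_Ioc]
      omega
    refine (card_le_card this).trans ?_
    rw [Nat.card_Ioc]
    omega
  refine (norm_sub_le _ _).trans ?_
  have h4 := hc (Icc A B \ Icc (A + m) (B + m))
  have h5 := hc (Icc (A + m) (B + m) \ Icc A B)
  have h2' : ((Icc A B \ Icc (A + m) (B + m)).card : ℝ) ≤ m := by exact_mod_cast h2
  have h3' : ((Icc (A + m) (B + m) \ Icc A B).card : ℝ) ≤ m := by exact_mod_cast h3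
  linarith

open Classical in
theorem exps (h : S_CORE) : S_EXPS := by
  intro w K ξ δ β T0 T1 hξ hδ hβ hδβ hT0
  obtain ⟨A0, hA0, q0, hcore⟩ := h w K ξ δ β T0 T1 hξ hδ hβ hδβ hT0
  refine ⟨A0, hA0, max q0 1, ?_⟩
  intro q hq g A B hg l n n' hl hn hn' hnL
  have hq0 : q0 ≤ q := (le_max_left _ _).trans hq
  have hq1 : 1 ≤ q := (le_max_right _ _).trans hq
  obtain ⟨M, hM⟩ : ∃ M, M = MM q := ⟨_, rfl⟩
  have hM1 : 1 ≤ M := by
    rw [hM]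
    unfold MM
    apply Nat.le_floor
    rw [Nat.cast_one]
    exact Real.one_le_rpow (by exact_mod_cast hq1) (by norm_num)
  have hMr : (1 : ℝ) ≤ M := by exact_mod_cast hM1
  have hMpos : (0 : ℝ) < M := by linarith
  obtain ⟨G, hG⟩ : ∃ G : ℝ → ℂ, G = fun t => e (Fph w ξ l n n' (g t)) := ⟨_, rfl⟩
  have hG1 : ∀ t, ‖G t‖ = 1 := by
    intro t
    rw [hG]
    exact Exps_norm_e _
  obtain ⟨I, hI⟩ : ∃ I, I = Icc A B := ⟨_, rfl⟩
  obtain ⟨S, hS⟩ : ∃ S : ℂ, S = ∑ a ∈ I, G a := ⟨_, rfl⟩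
  have hS' : ∑ a ∈ Finset.Icc A B, e (Fph w ξ l n n' (g a)) = S := by
    rw [hS, hI, hG]
  rw [hS', ← hM, ← hI]
  obtain ⟨D, hD⟩ : ∃ D : ℝ, D = Real.exp (-(Real.log q) ^ β) := ⟨_, rfl⟩
  have hD0 : 0 ≤ D := by rw [hD]; exact (Real.exp_pos _).le
  rw [← hD]
  obtain ⟨F, hF⟩ : ∃ F : Finset ℕ, F = I.filter
    (fun a : ℕ => |pl w l (g a)| < (Real.log q) ^ (-(1 / 2) : ℝ)) := ⟨_, rfl⟩
  rw [← hF]
  -- the double sums
  have hin : ∀ a ∈ I, ‖∑ y ∈ Icc 1 M, ∑ z ∈ Icc 1 M, G ((a : ℝ) + ((y * z : ℕ) : ℝ))‖ ≤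
      (if |pl w l (g a)| < (Real.log q) ^ (-(1 / 2) : ℝ) then (M : ℝ) ^ 2 else 0) +
        (M : ℝ) ^ 2 * D := by
    intro a ha
    rw [hI, mem_Icc] at ha
    split_ifs with hc
    · have h1 : ‖∑ y ∈ Icc 1 M, ∑ z ∈ Icc 1 M, G ((a : ℝ) + ((y * z : ℕ) : ℝ))‖ ≤ (M : ℝ) ^ 2 := by
        refine (norm_sum_le _ _).trans ?_
        refine (sum_le_sum (fun y _ => norm_sum_le _ _)).trans ?_
        simp only [hG1, sum_const, Nat.card_Icc, nsmul_eq_mul, mul_one]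
        rw [show M + 1 - 1 = M by omega, pow_two]
      have : 0 ≤ (M : ℝ) ^ 2 * D := by positivity
      linarith
    · obtain ⟨Y, W, hEx, h1, h2, h3, h4⟩ := hg a ha.1 ha.2
      have h5 := hcore q hq0 g a Y W hEx h1 h2 h3 h4 l n n' hl hn hn' hnL (not_lt.1 hc)
      rw [hG, zero_add, hD, hM]
      exact h5
  have hsum : ‖∑ a ∈ I, ∑ y ∈ Icc 1 M, ∑ z ∈ Icc 1 M, G ((a : ℝ) + ((y * z : ℕ) : ℝ))‖ ≤
      (M : ℝ) ^ 2 * F.card + I.card * ((M : ℝ) ^ 2 * D) := by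
    refine (norm_sum_le _ _).trans ((sum_le_sum hin).trans (le_of_eq ?_))
    rw [sum_add_distrib, sum_const, nsmul_eq_mul, ← sum_filter, ← hF, sum_const, nsmul_eq_mul,
      mul_comm (F.card : ℝ)]
  have hexch : ∑ a ∈ I, ∑ y ∈ Icc 1 M, ∑ z ∈ Icc 1 M, G ((a : ℝ) + ((y * z : ℕ) : ℝ)) =
      ∑ y ∈ Icc 1 M, ∑ z ∈ Icc 1 M, ∑ a ∈ I, G ((a : ℝ) + ((y * z : ℕ) : ℝ)) := by
    rw [sum_comm]
    refine sum_congr rfl fun y _ => ?_
    rw [sum_comm]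
  have hdiff : ‖∑ y ∈ Icc 1 M, ∑ z ∈ Icc 1 M, (S - ∑ a ∈ I, G ((a : ℝ) + ((y * z : ℕ) : ℝ)))‖ ≤
      2 * (M : ℝ) ^ 4 := by
    have h1 : ∀ y ∈ Icc 1 M, ∀ z ∈ Icc 1 M,
        ‖S - ∑ a ∈ I, G ((a : ℝ) + ((y * z : ℕ) : ℝ))‖ ≤ 2 * (M : ℝ) ^ 2 := by
      intro y hy z hz
      rw [mem_Icc] at hy hz
      rw [hS, hI]
      refine (Exps_shift G hG1 A B (y * z)).trans ?_
      have : y * z ≤ M * M := Nat.mul_le_mul hy.2 hz.2
      have h2 : ((y * z : ℕ) : ℝ) ≤ (M : ℝ) ^ 2 := by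
        rw [pow_two]
        exact_mod_cast this
      linarith
    refine (norm_sum_le _ _).trans ?_
    refine (sum_le_sum (fun y _ => norm_sum_le _ _)).trans ?_
    refine (sum_le_sum (fun y hy => sum_le_sum (fun z hz => h1 y hy z hz))).trans ?_
    simp only [sum_const, Nat.card_Icc, nsmul_eq_mul]
    rw [show M + 1 - 1 = M by omega]
    apply le_of_eq
    ring
  have hSS : ∑ y ∈ Icc 1 M, ∑ z ∈ Icc 1 M, S = ((M : ℂ)) ^ 2 * S := by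
    simp only [sum_const, Nat.card_Icc, nsmul_eq_mul]
    rw [show M + 1 - 1 = M by omega]
    ring
  have hmain : (M : ℝ) ^ 2 * ‖S‖ ≤ 2 * (M : ℝ) ^ 4 +
      ((M : ℝ) ^ 2 * F.card + I.card * ((M : ℝ) ^ 2 * D)) := by
    have h1 : ((M : ℂ)) ^ 2 * S = ∑ y ∈ Icc 1 M, ∑ z ∈ Icc 1 M,
        (S - ∑ a ∈ I, G ((a : ℝ) + ((y * z : ℕ) : ℝ))) +
        ∑ a ∈ I, ∑ y ∈ Icc 1 M, ∑ z ∈ Icc 1 M, G ((a : ℝ) + ((y * z : ℕ) : ℝ)) := by
      rw [hexch, ← hSS, ← sum_add_distrib]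
      refine sum_congr rfl fun y _ => ?_
      rw [← sum_add_distrib]
      refine sum_congr rfl fun z _ => ?_
      ring
    have h2 : ‖((M : ℂ)) ^ 2 * S‖ = (M : ℝ) ^ 2 * ‖S‖ := by
      rw [norm_mul, norm_pow, Complex.norm_natCast]
    rw [← h2, h1]
    exact (norm_add_le _ _).trans (add_le_add hdiff hsum)
  have hM2 : (0 : ℝ) < (M : ℝ) ^ 2 := by positivity
  have : (M : ℝ) ^ 2 * ‖S‖ ≤ (M : ℝ) ^ 2 * ((F.card : ℝ) + 2 * (M : ℝ) ^ 2 + I.card * D) := by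
    refine hmain.trans (le_of_eq ?_)
    ring
  exact le_of_mul_le_mul_left this hM2

end Pool.Agent.N586.KO
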