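import Pool.Agent.N586.KO.Stm

/-!
# KO/3: the size of the Taylor coefficients of the phase (helper700)
-/

set_option autoImplicit false

namespace Pool.Agent.N586.KO

open Finset Filter

lemma co_hs {w : ℕ} {g : ℝ → ℝ} {a Y : ℝ} {W : ℕ → ℕ → ℝ} (h : Ex g a Y W) (ξ : ℝ) (l : ℕ → ℤ)
    (n n' : ℕ) (y : ℝ) (hy : 0 ≤ y) :
    HasSum (fun k => cf w ξ l n n' (g a) W k * y ^ k) (Fph w ξ l n n' (g (a + y))) := by
  unfold cf Fph
  have h1 : ∀ j ∈ range w, HasSum (fun k => (l j : ℝ) * (W (n + j) k * g a ^ (n + j) * y ^ k -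
      W (n' + j) k * g a ^ (n' + j) * y ^ k))
      ((l j : ℝ) * (g (a + y) ^ (n + j) - g (a + y) ^ (n' + j))) := by
    intro j _
    exact ((h.sum (n + j) y hy).sub (h.sum (n' + j) y hy)).mul_left _
  have h2 := (hasSum_sum h1).mul_left ξ
  have e1 : (fun k => ξ * ∑ j ∈ range w, (l j : ℝ) * (W (n + j) k * g a ^ (n + j) * y ^ k -
      W (n' + j) k * g a ^ (n' + j) * y ^ k)) = fun k => (ξ * ∑ j ∈ range w, (l j : ℝ) *
      (W (n + j) k * g a ^ (n + j) - W (n' + j) k * g a ^ (n' + j))) * y ^ k := by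
    funext k
    rw [mul_assoc, Finset.sum_mul]
    congr 1
    apply Finset.sum_congr rfl
    intro j _
    ring
  rw [e1] at h2
  exact h2

/-- the trivial bound of a sum -/
lemma co_sum {w K : ℕ} (l : ℕ → ℤ) (hl : ∀ j, |l j| ≤ K) (u : ℕ → ℝ) (B : ℝ)
    (hu : ∀ j ∈ range w, |u j| ≤ B) : |∑ j ∈ range w, (l j : ℝ) * u j| ≤ w * (K * B) := by
  calc |∑ j ∈ range w, (l j : ℝ) * u j| ≤ ∑ j ∈ range w, |(l j : ℝ) * u j| :=
        Finset.abs_sum_le_sum_abs _ _
    _ ≤ ∑ j ∈ range w, (K : ℝ) * B := by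
        apply Finset.sum_le_sum
        intro j hj
        rw [abs_mul]
        have h1 : |(l j : ℝ)| ≤ K := by
          have := hl j
          rw [← Int.cast_abs]
          exact_mod_cast this
        exact mul_le_mul h1 (hu j hj) (abs_nonneg _) (Nat.cast_nonneg _)
    _ = w * (K * B) := by
        rw [Finset.sum_const, Finset.card_range, nsmul_eq_mul]

lemma co_up {w K : ℕ} {T1 : ℝ} {g : ℝ → ℝ} {a Y : ℝ} {W : ℕ → ℕ → ℝ} (h : Ex g a Y W) (hY : 0 < Y)
    (hx1 : 1 ≤ g a) (hx : g a ≤ T1) (ξ : ℝ) (l : ℕ → ℤ) (n n' : ℕ) (hl : ∀ j, |l j| ≤ K)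
    (hn : n' < n) (hw : w ≤ n) (k : ℕ) :
    |cf w ξ l n n' (g a) W k| ≤
      (2 * w * K * T1 ^ w + 1) * (|ξ| * g a ^ n) * (2 * (n : ℝ) / Y) ^ k := by
  unfold cf
  have hT : 1 ≤ T1 := hx1.trans hx
  have hx0 : 0 ≤ g a := by linarith
  set P : ℝ := (2 * (n : ℝ) / Y) ^ k with hP
  have hP0 : 0 ≤ P := by positivity
  have hw1 : ∀ m j : ℕ, m ≤ n → j < w → W (m + j) k ≤ P := by
    intro m j hm hj
    refine (h.up (m + j) k).trans ?_
    rw [hP]
    apply pow_le_pow_left₀ (by positivity)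
    apply div_le_div_of_nonneg_right _ hY.le
    push_cast
    have h1 : (m : ℝ) ≤ n := by exact_mod_cast hm
    have h2 : (j : ℝ) ≤ n := by exact_mod_cast (hj.le.trans hw)
    linarith
  have hw2 : ∀ m j : ℕ, m ≤ n → j < w → g a ^ (m + j) ≤ T1 ^ w * g a ^ n := by
    intro m j hm hj
    rw [pow_add, mul_comm]
    apply mul_le_mul
    · exact (pow_le_pow_left₀ hx0 hx j).trans (pow_le_pow_right₀ hT hj.le)
    · exact pow_le_pow_right₀ hx1 hm
    · positivity
    · positivity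
  have hw3 : ∀ m j : ℕ, m ≤ n → j < w → W (m + j) k * g a ^ (m + j) ≤ P * (T1 ^ w * g a ^ n) := by
    intro m j hm hj
    exact mul_le_mul (hw1 m j hm hj) (hw2 m j hm hj) (by positivity) hP0
  have h4 := co_sum (w := w) (K := K) l hl
    (fun j => W (n + j) k * g a ^ (n + j) - W (n' + j) k * g a ^ (n' + j))
    (P * (T1 ^ w * g a ^ n) * 2) (by
      intro j hj
      have hj' := Finset.mem_range.1 hj
      have h1 := hw3 n j le_rfl hj'
      have h2 := hw3 n' j hn.le hj'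
      have h3 : 0 ≤ W (n + j) k * g a ^ (n + j) := mul_nonneg (h.nonneg _ _) (by positivity)
      have h4 : 0 ≤ W (n' + j) k * g a ^ (n' + j) := mul_nonneg (h.nonneg _ _) (by positivity)
      show |W (n + j) k * g a ^ (n + j) - W (n' + j) k * g a ^ (n' + j)| ≤ _
      rw [abs_le]
      constructor <;> linarith)
  rw [abs_mul]
  calc |ξ| * |∑ j ∈ range w, (l j : ℝ) *
        (W (n + j) k * g a ^ (n + j) - W (n' + j) k * g a ^ (n' + j))|
      ≤ |ξ| * (w * (K * (P * (T1 ^ w * g a ^ n) * 2))) :=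
        mul_le_mul_of_nonneg_left h4 (abs_nonneg _)
    _ = (2 * w * K * T1 ^ w) * (|ξ| * g a ^ n) * P := by ring
    _ ≤ (2 * w * K * T1 ^ w + 1) * (|ξ| * g a ^ n) * P := by
        apply mul_le_mul_of_nonneg_right _ hP0
        apply mul_le_mul_of_nonneg_right _ (by positivity)
        linarith

lemma co_exp {t s : ℝ} (h0 : 0 ≤ t) (hs : t ≤ s) (h1 : s ≤ 1) : Real.exp t - 1 ≤ 2 * s := by
  have h2 := Real.abs_exp_sub_one_le (x := t) (by rw [abs_of_nonneg h0]; linarith)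
  rw [abs_of_nonneg h0] at h2
  have h3 := le_abs_self (Real.exp t - 1)
  linarith

/-- the main estimate -/
lemma co_lo {w K : ℕ} {T0 T1 C q s : ℝ} {g : ℝ → ℝ} {a Y : ℝ} {W : ℕ → ℕ → ℝ} (h : Ex g a Y W)
    (hT0 : 1 < T0) (hx0 : T0 ≤ g a) (hx : g a ≤ T1) (ξ : ℝ) (l : ℕ → ℤ)
    (n n' : ℕ) (hl : ∀ j, |l j| ≤ K) (hn : n' < n) (hn0 : 1 ≤ n')
    (hp : s ≤ |pl w l (g a)|) (k : ℕ) (hk : 1 ≤ k) (h2k : 2 * k ≤ n')
    (hq0 : 0 ≤ C * q) (hkn : (k : ℝ) ≤ C * q * n') (hwq : 2 * w * (C * q) ≤ 1)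
    (hB : w * (K * (T1 ^ w * (8 * w * (C * q)))) ≤ (1 - 1 / T0) / 2 * s) :
    (1 - 1 / T0) / 2 * s * (|ξ| * g a ^ n) * ((n : ℝ) / (k * Y)) ^ k ≤
      |cf w ξ l n n' (g a) W k| := by
  set x := g a with hxd
  have hx1 : 1 ≤ x := by linarith
  have hxp : 0 < x := by linarith
  have hT1 : 1 ≤ T1 := hx1.trans hx
  have hn0' : (0 : ℝ) < n' := by exact_mod_cast hn0
  have hnn : (n' : ℝ) ≤ n := by exact_mod_cast hn.le
  have hnp : (0 : ℝ) < n := by linarith
  have hW0 : 0 ≤ W n k := h.nonneg _ _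
  have hW0' : 0 ≤ W n' k := h.nonneg _ _
  have hWW : W n' k ≤ W n k := h.mono _ _ _ hn.le
  -- the errors
  have key : ∀ m j : ℕ, n' ≤ m → j < w → 0 ≤ W (m + j) k - W m k ∧
      W (m + j) k - W m k ≤ 4 * w * (C * q) * W m k := by
    intro m j hm hj
    have hm' : (n' : ℝ) ≤ m := by exact_mod_cast hm
    have hmp : (0 : ℝ) < m := by linarith
    have r1 := h.ratio m j k (hn0.trans hm) (h2k.trans hm)
    have r2 := h.mono m (m + j) k (Nat.le_add_right _ _)
    refine ⟨by linarith, ?_⟩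
    have r3 : 2 * (j : ℝ) * k / m ≤ 2 * w * (C * q) := by
      rw [div_le_iff₀ hmp]
      have a1 : (j : ℝ) ≤ w := by exact_mod_cast hj.le
      have a2 : (k : ℝ) ≤ C * q * m := hkn.trans (mul_le_mul_of_nonneg_left hm' hq0)
      calc 2 * (j : ℝ) * k ≤ 2 * w * (C * q * m) := by
            apply mul_le_mul _ a2 (by positivity) (by positivity)
            linarith
        _ = 2 * w * (C * q) * m := by ring
    have r4 := co_exp (by positivity) r3 hwq
    have r5 : Real.exp (2 * (j : ℝ) * k / m) * W m k - W m k ≤ 2 * (2 * w * (C * q)) * W m k := by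
      have := mul_le_mul_of_nonneg_right r4 (h.nonneg m k)
      linarith
    linarith
  have hpow : ∀ m j : ℕ, m ≤ n → j < w → x ^ (m + j) ≤ T1 ^ w * x ^ n := by
    intro m j hm hj
    rw [pow_add, mul_comm]
    apply mul_le_mul
    · exact (pow_le_pow_left₀ hxp.le hx j).trans (pow_le_pow_right₀ hT1 hj.le)
    · exact pow_le_pow_right₀ hx1 hm
    · positivity
    · positivity
  have herr : ∀ m j : ℕ, n' ≤ m → m ≤ n → j < w →
      0 ≤ (W (m + j) k - W m k) * x ^ (m + j) ∧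
      (W (m + j) k - W m k) * x ^ (m + j) ≤ 4 * w * (C * q) * W n k * (T1 ^ w * x ^ n) := by
    intro m j h1 h2 hj
    obtain ⟨k1, k2⟩ := key m j h1 hj
    refine ⟨mul_nonneg k1 (by positivity), ?_⟩
    apply mul_le_mul _ (hpow m j h2 hj) (by positivity) (by positivity)
    exact k2.trans (mul_le_mul_of_nonneg_left (h.mono _ _ _ h2) (by positivity))
  have hE := co_sum (w := w) (K := K) l hl
    (fun j => (W (n + j) k - W n k) * x ^ (n + j) - (W (n' + j) k - W n' k) * x ^ (n' + j))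
    (4 * w * (C * q) * W n k * (T1 ^ w * x ^ n) * 2) (by
      intro j hj
      have hj' := Finset.mem_range.1 hj
      obtain ⟨a1, a2⟩ := herr n j hn.le le_rfl hj'
      obtain ⟨b1, b2⟩ := herr n' j le_rfl hn.le hj'
      show |(W (n + j) k - W n k) * x ^ (n + j) - (W (n' + j) k - W n' k) * x ^ (n' + j)| ≤ _
      rw [abs_le]
      constructor <;> linarith)
  have hdec : cf w ξ l n n' x W k = ξ * ((W n k * x ^ n - W n' k * x ^ n') * pl w l x +
      ∑ j ∈ range w, (l j : ℝ) * ((W (n + j) k - W n k) * x ^ (n + j) -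
        (W (n' + j) k - W n' k) * x ^ (n' + j))) := by
    unfold cf pl
    congr 1
    rw [Finset.mul_sum, ← Finset.sum_add_distrib]
    apply Finset.sum_congr rfl
    intro j _
    rw [pow_add, pow_add]
    ring
  set E := ∑ j ∈ range w, (l j : ℝ) * ((W (n + j) k - W n k) * x ^ (n + j) -
        (W (n' + j) k - W n' k) * x ^ (n' + j)) with hEd
  have hmain : (1 - 1 / T0) * (W n k * x ^ n) ≤ W n k * x ^ n - W n' k * x ^ n' := by
    have a1 : T0 * x ^ n' ≤ x ^ n := by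
      calc T0 * x ^ n' ≤ x * x ^ n' := mul_le_mul_of_nonneg_right hx0 (by positivity)
        _ = x ^ (n' + 1) := by ring
        _ ≤ x ^ n := pow_le_pow_right₀ hx1 hn
    have a2 : x ^ n' ≤ 1 / T0 * x ^ n := by
      rw [one_div, inv_mul_eq_div, le_div_iff₀ (by linarith)]
      linarith
    have a3 : W n' k * x ^ n' ≤ W n k * (1 / T0 * x ^ n) :=
      mul_le_mul hWW a2 (by positivity) hW0
    linarith
  have hT0' : 0 < 1 - 1 / T0 := by
    have : 1 / T0 < 1 := by rw [div_lt_one (by linarith)]; exact hT0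
    linarith
  have hWx : 0 ≤ W n k * x ^ n := mul_nonneg hW0 (by positivity)
  have h5 : (1 - 1 / T0) * (W n k * x ^ n) * s ≤ |(W n k * x ^ n - W n' k * x ^ n') * pl w l x| := by
    rw [abs_mul, abs_of_nonneg (le_trans (mul_nonneg hT0'.le hWx) hmain)]
    calc (1 - 1 / T0) * (W n k * x ^ n) * s ≤ (1 - 1 / T0) * (W n k * x ^ n) * |pl w l x| :=
          mul_le_mul_of_nonneg_left hp (mul_nonneg hT0'.le hWx)
      _ ≤ _ := mul_le_mul_of_nonneg_right hmain (abs_nonneg _)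
  have h6 : |E| ≤ (1 - 1 / T0) / 2 * s * (W n k * x ^ n) := by
    refine hE.trans ?_
    calc (w : ℝ) * (K * (4 * w * (C * q) * W n k * (T1 ^ w * x ^ n) * 2))
        = w * (K * (T1 ^ w * (8 * w * (C * q)))) * (W n k * x ^ n) := by ring
      _ ≤ _ := mul_le_mul_of_nonneg_right hB hWx
  have h7 : (1 - 1 / T0) / 2 * s * (W n k * x ^ n) ≤
      |(W n k * x ^ n - W n' k * x ^ n') * pl w l x + E| := by
    have a1 := abs_sub_abs_le_abs_sub ((W n k * x ^ n - W n' k * x ^ n') * pl w l x) (-E)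
    rw [abs_neg, sub_neg_eq_add] at a1
    linarith
  have hs : 0 ≤ (1 - 1 / T0) / 2 * s := le_trans (by positivity) hB
  have h8 : ((n : ℝ) / (k * Y)) ^ k ≤ W n k := h.lo n k hk (by omega)
  rw [hdec, abs_mul]
  calc (1 - 1 / T0) / 2 * s * (|ξ| * x ^ n) * ((n : ℝ) / (k * Y)) ^ k
      ≤ (1 - 1 / T0) / 2 * s * (|ξ| * x ^ n) * W n k :=
        mul_le_mul_of_nonneg_left h8 (mul_nonneg hs (by positivity))
    _ = |ξ| * ((1 - 1 / T0) / 2 * s * (W n k * x ^ n)) := by ring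
    _ ≤ _ := mul_le_mul_of_nonneg_left h7 (abs_nonneg _)

lemma co_ev (B ε y : ℝ) (hy : 0 < y) (hε : 0 < ε) : ∀ᶠ L : ℝ in atTop, B * L ^ (-y) ≤ ε := by
  have h1 := (tendsto_rpow_neg_atTop hy).const_mul B
  rw [mul_zero] at h1
  exact (h1.eventually (gt_mem_nhds hε)).mono fun _ h => le_of_lt h

theorem co : S_CO := by
  intro w K δ T0 T1 C0 hδ0 hδ hT0
  have hT0' : 0 < 1 - 1 / T0 := by
    have : 1 / T0 < 1 := by rw [div_lt_one (by linarith)]; exact hT0
    linarith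
  set C : ℝ := |C0| + 1 with hC
  have hCp : 0 < C := by positivity
  have hCC : C0 ≤ C := by
    have := le_abs_self C0
    linarith
  by_cases hT1 : T1 < 0
  · -- no points
    refine ⟨1, one_pos, 1, one_pos, 0, ?_⟩
    intro L _ g a Y W _ _ h1 h2
    exfalso
    linarith
  push Not at hT1
  refine ⟨(1 - 1 / T0) / 2, by positivity, 2 * w * K * T1 ^ w + 1, by positivity, ?_⟩
  have e1 := co_ev (2 * (w + 1) * C) 1 (1 - δ) (by linarith) one_pos
  have e2 := co_ev (w * (K * (T1 ^ w * (8 * w * C)))) ((1 - 1 / T0) / 2) (1 / 2 - δ) (by linarith)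
    (by positivity)
  have e3 : ∀ᶠ L : ℝ in atTop, (w : ℝ) + 1 ≤ L := eventually_ge_atTop _
  obtain ⟨L0, hL0⟩ := Filter.eventually_atTop.1 ((e1.and e2).and e3)
  refine ⟨L0, ?_⟩
  intro L hL g a Y W h hY hx0 hx ξ l n n' hl hn hLn hp
  obtain ⟨⟨f1, f2⟩, f3⟩ := hL0 L hL
  have hw0 : (0 : ℝ) ≤ w := Nat.cast_nonneg _
  have hLp : 0 < L := by linarith
  have hn0 : 1 ≤ n' := by
    have : (1 : ℝ) ≤ n' := by linarith
    exact_mod_cast this
  have hwn : w ≤ n := by
    have h1 : (w : ℝ) ≤ n' := by linarith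
    have h2 : w ≤ n' := by exact_mod_cast h1
    omega
  refine ⟨?_, ?_, ?_⟩
  · intro k hk hk1 _
    set q : ℝ := L ^ (-(1 - δ) : ℝ) with hq
    have hqp : 0 < q := Real.rpow_pos_of_pos hLp _
    have hLq : L ^ δ = q * L := by
      rw [hq, ← Real.rpow_add_one hLp.ne']
      congr 1
      ring
    have hkq : (k : ℝ) ≤ C * q * L := by
      calc (k : ℝ) ≤ C0 * L ^ δ := hk1
        _ ≤ C * L ^ δ := mul_le_mul_of_nonneg_right hCC (by positivity)
        _ = C * q * L := by rw [hLq]; ring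
    have hkn : (k : ℝ) ≤ C * q * n' := hkq.trans (mul_le_mul_of_nonneg_left hLn (by positivity))
    have hwq : 2 * w * (C * q) ≤ 1 := by
      refine le_trans ?_ f1
      have : 0 ≤ C * q := by positivity
      nlinarith
    have hCq : 2 * (C * q) ≤ 1 := by
      refine le_trans ?_ f1
      have : 0 ≤ C * q := by positivity
      nlinarith
    have h2k : 2 * k ≤ n' := by
      have : (2 * k : ℝ) ≤ n' := by
        have a1 : 2 * (C * q) * n' ≤ 1 * n' := mul_le_mul_of_nonneg_right hCq (by positivity)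
        linarith
      exact_mod_cast this
    refine co_lo h hT0 hx0 hx ξ l n n' hl hn hn0 hp k hk h2k (by positivity) hkn hwq ?_
    have hqs : q = L ^ (-(1 / 2 - δ) : ℝ) * L ^ (-(1 / 2) : ℝ) := by
      rw [hq, ← Real.rpow_add hLp]
      congr 1
      ring
    calc (w : ℝ) * (K * (T1 ^ w * (8 * w * (C * q))))
        = w * (K * (T1 ^ w * (8 * w * C))) * L ^ (-(1 / 2 - δ) : ℝ) * L ^ (-(1 / 2) : ℝ) := by
          rw [hqs]; ring
      _ ≤ _ := mul_le_mul_of_nonneg_right f2 (by positivity)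
  · intro k
    exact co_up h hY (by linarith) hx ξ l n n' hl hn hwn k
  · intro y hy
    exact co_hs h ξ l n n' y hy

end Pool.Agent.N586.KO
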