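import Pool.Agent.N586.KO.Stm

/-!
# Expansions of (a / q) ^ m and of the powers of alpha ^ (a / q) in the shift (helper607)
-/

set_option autoImplicit false

namespace Pool.Agent.N586.KO

open Finset Filter

theorem famPowLeChoose : ∀ k m : ℕ, k ≤ m → m ^ k ≤ m.choose k * k ^ k := by
  intro k
  induction k with
  | zero => intro m _; simp
  | succ k ih =>
    intro m hm
    obtain ⟨n, rfl⟩ : ∃ n, m = n + 1 := ⟨m - 1, by omega⟩
    have hk : k ≤ n := by omega
    have h1 := ih n hk
    have h2 : (n + 1) * n.choose k = (n + 1).choose (k + 1) * (k + 1) :=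
      Nat.add_one_mul_choose_eq n k
    have h3 : (n + 1) ^ k ≤ n.choose k * (k + 1) ^ k := by
      rcases Nat.eq_zero_or_pos k with h0 | h0
      · subst h0
        simp
      · have h4 : (n + 1) * k ≤ n * (k + 1) := by nlinarith
        have h5 : ((n + 1) * k) ^ k ≤ (n * (k + 1)) ^ k := Nat.pow_le_pow_left h4 k
        rw [mul_pow, mul_pow] at h5
        have h6 : n ^ k * (k + 1) ^ k ≤ n.choose k * k ^ k * (k + 1) ^ k :=
          Nat.mul_le_mul_right _ h1
        have h7 : (n + 1) ^ k * k ^ k ≤ n.choose k * (k + 1) ^ k * k ^ k := by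
          calc (n + 1) ^ k * k ^ k ≤ _ := h5
            _ ≤ _ := h6
            _ = _ := by ring
        exact Nat.le_of_mul_le_mul_right h7 (pow_pos h0 k)
    calc (n + 1) ^ (k + 1) = (n + 1) * (n + 1) ^ k := by ring
      _ ≤ (n + 1) * (n.choose k * (k + 1) ^ k) := Nat.mul_le_mul_left _ h3
      _ = ((n + 1) * n.choose k) * (k + 1) ^ k := by ring
      _ = (n + 1).choose (k + 1) * (k + 1) ^ (k + 1) := by rw [h2]; ring

theorem famRatio (m k : ℕ) (hm : 1 ≤ m) (hk : 2 * k ≤ m) : ∀ j : ℕ,
    ((m + j).choose k : ℝ) ≤ Real.exp (2 * j * k / m) * (m.choose k : ℝ) := by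
  have hm0 : (0 : ℝ) < m := by exact_mod_cast hm
  intro j
  induction j with
  | zero => simp
  | succ j ih =>
    have h1 : (m + j).choose k * (m + j + 1) = (m + j + 1).choose k * (m + j + 1 - k) :=
      Nat.choose_mul_succ_eq (m + j) k
    have hle : k ≤ m + j + 1 := by omega
    have h2 : ((m + j).choose k : ℝ) * (m + j + 1) =
        ((m + j + 1).choose k : ℝ) * (m + j + 1 - k) := by
      have := congrArg (fun x : ℕ => (x : ℝ)) h1
      simp only [Nat.cast_mul] at this
      rw [Nat.cast_sub hle] at this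
      push_cast at this
      exact this
    set D : ℝ := (m : ℝ) + j + 1 - k with hD
    have hkr : 2 * (k : ℝ) ≤ m := by exact_mod_cast hk
    have hj0 : (0 : ℝ) ≤ j := Nat.cast_nonneg j
    have hk0 : (0 : ℝ) ≤ k := Nat.cast_nonneg k
    have hDm : (m : ℝ) ≤ 2 * D := by rw [hD]; linarith
    have hD0 : 0 < D := by linarith
    have h3 : (m : ℝ) + j + 1 ≤ D * Real.exp (2 * k / m) := by
      have h4 : 2 * (k : ℝ) / m + 1 ≤ Real.exp (2 * k / m) := Real.add_one_le_exp _
      have h5 : (m : ℝ) + j + 1 ≤ D * (2 * (k : ℝ) / m + 1) := by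
        have h6 : (k : ℝ) ≤ D * (2 * (k : ℝ) / m) := by
          have h7 : D * (2 * (k : ℝ) / m) = (2 * D) * k / m := by ring
          rw [h7, le_div_iff₀ hm0]
          nlinarith
        rw [mul_add, mul_one]
        have : (m : ℝ) + j + 1 = k + D := by rw [hD]; ring
        linarith
      exact h5.trans (mul_le_mul_of_nonneg_left h4 hD0.le)
    have h8 : ((m + j + 1).choose k : ℝ) * D ≤
        Real.exp (2 * (j + 1 : ℕ) * k / m) * (m.choose k : ℝ) * D := by
      rw [← h2]
      have h9 : Real.exp (2 * (j + 1 : ℕ) * k / m) =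
          Real.exp (2 * j * k / m) * Real.exp (2 * k / m) := by
        rw [← Real.exp_add]
        congr 1
        push_cast
        field_simp
      rw [h9]
      calc ((m + j).choose k : ℝ) * (m + j + 1)
          ≤ (Real.exp (2 * j * k / m) * (m.choose k : ℝ)) * (D * Real.exp (2 * k / m)) :=
            mul_le_mul ih h3 (by positivity) (by positivity)
        _ = _ := by ring
    exact le_of_mul_le_mul_right h8 hD0

theorem fr : S_FR := by
  intro q a hq ha
  have hq0 : (0 : ℝ) < q := by exact_mod_cast hq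
  refine ⟨?_, ?_, ?_, ?_, ?_, ?_⟩
  · intro m y _
    have h1 : ((a + y) / q) ^ m = ∑ k ∈ Finset.range (m + 1),
        (m.choose k : ℝ) / a ^ k * (a / q) ^ m * y ^ k := by
      have h2 : (a + y) / q = (a / q) * (y / a + 1) := by
        field_simp
        ring
      rw [h2, mul_pow, add_pow, Finset.mul_sum]
      refine Finset.sum_congr rfl fun k _ => ?_
      rw [one_pow, div_pow]
      ring
    change HasSum (fun k => (m.choose k : ℝ) / a ^ k * (a / q) ^ m * y ^ k) (((a + y) / q) ^ m)
    rw [h1]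
    refine hasSum_sum_of_ne_finset_zero fun k hk => ?_
    rw [Finset.mem_range, not_lt] at hk
    rw [Nat.choose_eq_zero_of_lt (by omega)]
    simp
  · intro m k
    positivity
  · intro m k hk hkm
    have hk0 : (0 : ℝ) < k := by exact_mod_cast hk
    have h1 : ((m : ℝ)) ^ k ≤ m.choose k * (k : ℝ) ^ k := by
      exact_mod_cast famPowLeChoose k m hkm
    have h2 : ((m : ℝ) / (k * a)) ^ k = (m : ℝ) ^ k / (k ^ k * a ^ k) := by
      rw [div_pow, mul_pow]
    rw [h2, div_le_div_iff₀ (by positivity) (by positivity)]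
    have h3 : (m : ℝ) ^ k * a ^ k ≤ m.choose k * (k : ℝ) ^ k * a ^ k :=
      mul_le_mul_of_nonneg_right h1 (by positivity)
    linarith
  · intro m k
    change (m.choose k : ℝ) / a ^ k ≤ ((m : ℝ) / a) ^ k
    rw [div_pow]
    have h1 : (m.choose k : ℝ) ≤ (m : ℝ) ^ k := by exact_mod_cast Nat.choose_le_pow m k
    exact div_le_div_of_nonneg_right h1 (by positivity)
  · intro m' m k h
    change (m'.choose k : ℝ) / a ^ k ≤ (m.choose k : ℝ) / a ^ k
    have h1 : (m'.choose k : ℝ) ≤ m.choose k := by exact_mod_cast Nat.choose_le_choose k h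
    exact div_le_div_of_nonneg_right h1 (by positivity)
  · intro m j k hm hk
    change ((m + j).choose k : ℝ) / a ^ k ≤ Real.exp (2 * j * k / m) * ((m.choose k : ℝ) / a ^ k)
    rw [← mul_div_assoc]
    exact div_le_div_of_nonneg_right (famRatio m k hm hk j) (by positivity)

theorem fe : S_FE := by
  intro q a α hq hα
  have hq0 : (0 : ℝ) < q := by exact_mod_cast hq
  have hlog : 0 < Real.log α := Real.log_pos hα
  have hα0 : 0 < α := by linarith
  set Y : ℝ := q / Real.log α with hY
  have hY0 : 0 < Y := by positivity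
  refine ⟨?_, ?_, ?_, ?_, ?_, ?_⟩
  · intro m y _
    beta_reduce
    have h1 : (α ^ ((a + y) / q)) ^ m = (α ^ (a / q)) ^ m * Real.exp (m * y / Y) := by
      have h2 : (a + y) / q = a / q + y / q := by ring
      rw [h2, Real.rpow_add hα0, mul_pow]
      congr 1
      rw [Real.rpow_def_of_pos hα0, ← Real.exp_nat_mul]
      congr 1
      rw [hY]
      field_simp
    have h3 := (NormedSpace.expSeries_div_hasSum_exp (𝔸 := ℝ) ((m : ℝ) * y / Y)).mul_left
      ((α ^ (a / (q : ℝ))) ^ m)
    rw [← Real.exp_eq_exp_ℝ] at h3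
    have h5 : (fun k : ℕ => ((m : ℝ) / Y) ^ k / (k.factorial : ℝ) * (α ^ (a / (q : ℝ))) ^ m *
        y ^ k) = fun k : ℕ => (α ^ (a / (q : ℝ))) ^ m * (((m : ℝ) * y / Y) ^ k / (k.factorial : ℝ)) := by
      funext k
      have h4 : ((m : ℝ) * y / Y) ^ k = ((m : ℝ) / Y) ^ k * y ^ k := by
        rw [← mul_pow]
        congr 1
        ring
      rw [h4]
      ring
    rw [h1, h5]
    exact h3
  · intro m k
    positivity
  · intro m k hk hkm
    have hk0 : (0 : ℝ) < k := by exact_mod_cast hk
    have h1 : (k.factorial : ℝ) ≤ (k : ℝ) ^ k := by exact_mod_cast Nat.factorial_le_pow k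
    have h2 : ((m : ℝ) / (k * Y)) ^ k = ((m : ℝ) / Y) ^ k / (k : ℝ) ^ k := by
      rw [← div_pow]
      congr 1
      field_simp
    rw [h2]
    exact div_le_div_of_nonneg_left (by positivity) (by positivity) h1
  · intro m k
    refine div_le_self (by positivity) ?_
    exact_mod_cast Nat.one_le_iff_ne_zero.2 (Nat.factorial_ne_zero k)
  · intro m' m k h
    have h1 : (m' : ℝ) ≤ m := by exact_mod_cast h
    have h2 : ((m' : ℝ) / Y) ^ k ≤ ((m : ℝ) / Y) ^ k :=
      pow_le_pow_left₀ (by positivity) (div_le_div_of_nonneg_right h1 hY0.le) k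
    exact div_le_div_of_nonneg_right h2 (by positivity)
  · intro m j k hm hk
    have hm0 : (0 : ℝ) < m := by exact_mod_cast hm
    have h1 : (((m + j : ℕ) : ℝ) / Y) ≤ Real.exp (j / m) * ((m : ℝ) / Y) := by
      rw [← mul_div_assoc]
      refine div_le_div_of_nonneg_right ?_ hY0.le
      have h2 : (j : ℝ) / m + 1 ≤ Real.exp (j / m) := Real.add_one_le_exp _
      calc ((m + j : ℕ) : ℝ) = ((j : ℝ) / m + 1) * m := by
            push_cast
            field_simp
            ring
        _ ≤ Real.exp (j / m) * m := mul_le_mul_of_nonneg_right h2 hm0.le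
    have h3 : (((m + j : ℕ) : ℝ) / Y) ^ k ≤ Real.exp (2 * j * k / m) * ((m : ℝ) / Y) ^ k := by
      calc (((m + j : ℕ) : ℝ) / Y) ^ k ≤ (Real.exp (j / m) * ((m : ℝ) / Y)) ^ k :=
            pow_le_pow_left₀ (by positivity) h1 k
        _ = Real.exp (k * (j / m)) * ((m : ℝ) / Y) ^ k := by
            rw [mul_pow, ← Real.exp_nat_mul]
        _ ≤ Real.exp (2 * j * k / m) * ((m : ℝ) / Y) ^ k := by
            refine mul_le_mul_of_nonneg_right (Real.exp_le_exp.2 ?_) (by positivity)
            have h4 : (0 : ℝ) ≤ j * k / m := by positivity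
            have h5 : (k : ℝ) * (j / m) = j * k / m := by ring
            have h6 : 2 * (j : ℝ) * k / m = 2 * (j * k / m) := by ring
            linarith
    change (((m + j : ℕ) : ℝ) / Y) ^ k / k.factorial ≤
      Real.exp (2 * j * k / m) * (((m : ℝ) / Y) ^ k / k.factorial)
    rw [← mul_div_assoc]
    exact div_le_div_of_nonneg_right h3 (by positivity)

end Pool.Agent.N586.KO
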