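import Pool.Agent.N586.KO.Stm
import Pool.Agent.N507.KO.Scal
import Pool.Agent.N507.KO.Box
import Pool.Agent.N507.KO.Interp

/-!
# Project KO (helper586), the second moment method (helper507)
-/

set_option autoImplicit false

namespace Pool.Agent.N586.KO

open Finset
open Pool.Agent.Y933.KD (e e_zero e_add norm_e e_neg)
open Pool.Agent.N507.KO

/-- extension by zero -/
def smExt {w : ℕ} (h : Fin w → ℤ) (j : ℕ) : ℤ := if hj : j < w then h ⟨j, hj⟩ else 0

theorem smExt_sum {w : ℕ} (h : Fin w → ℤ) (x : ℕ → ℝ) :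
    ∑ j ∈ range w, (smExt h j : ℝ) * x j = ∑ j : Fin w, (h j : ℝ) * x j := by
  rw [Finset.sum_range]
  refine sum_congr rfl fun j _ => ?_
  unfold smExt
  rw [dif_pos j.isLt]

/-- the family of frequencies -/
noncomputable def smL (w K : ℕ) : Finset (Fin w → ℤ) :=
  (Fintype.piFinset fun _ : Fin w => Icc (-(K : ℤ)) K).filter (fun h => h ≠ 0)

theorem mem_smL {w K : ℕ} {h : Fin w → ℤ} : h ∈ smL w K ↔ (∀ j, |h j| ≤ K) ∧ h ≠ 0 := by
  unfold smL
  rw [mem_filter, Fintype.mem_piFinset]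
  simp only [mem_Icc, abs_le]

/-- the measure of one exceptional event -/
theorem smEvent {w K : ℕ} {h : Fin w → ℤ} (hh : h ∈ smL w K) {D : ℝ} (hD : 0 < D) {I : Finset ℕ}
    {z : ℕ → ℕ → ℝ} {n0 N1 : ℕ} {η : ℝ} (hn0 : 1 ≤ n0) (hη : 0 ≤ η)
    (hyp : ∀ l : ℕ → ℤ, (∀ j, |l j| ≤ K) → (∃ j < w, l j ≠ 0) → ∀ n n' : ℕ, n0 ≤ n' → n' < n →
      n ≤ N1 → ‖∑ a ∈ I, e (∑ j ∈ Finset.range w, (l j : ℝ) * (z a (n + j) - z a (n' + j)))‖ ≤
        η * (I.card : ℝ)) {t : ℕ} (ht0 : 2 * n0 ≤ t) (ht1 : t ≤ N1) :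
    ((I.filter (fun a => D * ((Ico n0 t).card : ℝ) <
      ‖∑ n ∈ Ico n0 t, e (∑ j : Fin w, (h j : ℝ) * z a (n + j))‖)).card : ℝ) ≤
      (I.card : ℝ) / D ^ 2 * (2 * (1 / (t : ℝ)) + η) := by
  rw [mem_smL] at hh
  have hl1 : ∀ j, |smExt h j| ≤ (K : ℤ) := by
    intro j
    unfold smExt
    by_cases hj : j < w
    · rw [dif_pos hj]; exact hh.1 _
    · rw [dif_neg hj, abs_zero]; exact Int.natCast_nonneg _
  have hl2 : ∃ j < w, smExt h j ≠ 0 := by
    by_contra hcon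
    push Not at hcon
    apply hh.2
    funext j
    have h1 := hcon j j.isLt
    unfold smExt at h1
    rwa [dif_pos j.isLt] at h1
  have hcard : ((Ico n0 t).card : ℝ) = t - n0 := by
    rw [Nat.card_Ico, Nat.cast_sub (by omega)]
  have ht0R : (2 : ℝ) * n0 ≤ t := by exact_mod_cast ht0
  have hn0R : (1 : ℝ) ≤ n0 := by exact_mod_cast hn0
  have hc0 : (0 : ℝ) < (Ico n0 t).card := by rw [hcard]; linarith
  have h1 := moment I (Ico n0 t) (fun a n => e (∑ j : Fin w, (h j : ℝ) * z a (n + j))) η hη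
    (fun a n => norm_e _) (by
      intro n hn n' hn' hlt
      rw [mem_Ico] at hn hn'
      have h2 := hyp (smExt h) hl1 hl2 n n' hn'.1 hlt (by omega)
      refine le_trans (le_of_eq ?_) h2
      congr 1
      refine sum_congr rfl fun a _ => ?_
      rw [← e_neg, ← e_add]
      congr 1
      rw [smExt_sum h (fun j => z a (n + j) - z a (n' + j)), ← sub_eq_add_neg, ← sum_sub_distrib]
      exact sum_congr rfl fun j _ => by ring)
  have h2 := markov I (fun a => ‖∑ n ∈ Ico n0 t, e (∑ j : Fin w, (h j : ℝ) * z a (n + j))‖)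
    (D * ((Ico n0 t).card : ℝ)) (by positivity)
  have h3 := h2.trans h1
  obtain ⟨c, hc⟩ : ∃ c : ℝ, c = ((Ico n0 t).card : ℝ) := ⟨_, rfl⟩
  rw [← hc] at h3 hc0 hcard ⊢
  obtain ⟨B, hB⟩ : ∃ B : ℝ, B = ((I.filter (fun a => D * c <
      ‖∑ n ∈ Ico n0 t, e (∑ j : Fin w, (h j : ℝ) * z a (n + j))‖)).card : ℝ) := ⟨_, rfl⟩
  rw [← hB] at h3 ⊢
  have h4 : B ≤ (I.card : ℝ) / D ^ 2 * (1 / c + η) := by
    have h5 : (I.card : ℝ) / D ^ 2 * (1 / c + η) = I.card * (c + η * c ^ 2) / (D * c) ^ 2 := by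
      field_simp
    rw [h5, le_div_iff₀ (by positivity)]
    exact h3
  refine h4.trans ?_
  refine mul_le_mul_of_nonneg_left ?_ (by positivity)
  have h5 : 1 / c ≤ 2 * (1 / (t : ℝ)) := by
    rw [mul_one_div, div_le_div_iff₀ hc0 (by linarith)]
    rw [hcard]
    linarith
  linarith

/-- good points -/
theorem smGood {w : ℕ} {ε δ : ℝ} (hδ : 0 < δ) (hδ1 : δ ≤ 1) (hδε : 8 * δ ≤ ε) {K : ℕ} {D : ℝ}
    (hbox : ∀ (s : Finset ℕ)
    (y : ℕ → ℝ), s.Nonempty → (∀ h : Fin w → ℤ, (∀ j, |h j| ≤ K) → h ≠ 0 →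
      ‖∑ n ∈ s, e (∑ j : Fin w, (h j : ℝ) * y (n + j))‖ ≤ D * s.card) →
    ∀ u v : Fin w → ℝ, (∀ j, 0 ≤ u j) → (∀ j, u j ≤ v j) → (∀ j, v j ≤ 1) →
      |((s.filter (fun n => ∀ j : Fin w, u j ≤ Int.fract (y (n + j)) ∧
        Int.fract (y (n + j)) < v j)).card : ℝ) - s.card * ∏ j, (v j - u j)| ≤ δ * s.card)
    {n0 N1 m : ℕ} {t : ℕ → ℕ} (hn0 : 1 ≤ n0) (ht : ∀ i ≤ m, 2 * n0 ≤ t i)
    (hsc : ∀ N : ℕ, 2 * n0 ≤ N → N ≤ N1 → ∃ i ≤ m, ∃ j ≤ m, t i ≤ N ∧ N ≤ t j ∧
        (t j : ℝ) ≤ (1 + δ) * t i + 1) {y : ℕ → ℝ}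
    (hgood : ∀ i ≤ m, ∀ h ∈ smL w K,
      ‖∑ n ∈ Ico n0 (t i), e (∑ j : Fin w, (h j : ℝ) * y (n + j))‖ ≤
        D * ((Ico n0 (t i)).card : ℝ)) :
    Eqd w ε (2 * n0) N1 y := by
  classical
  intro N u v hN hu huv hv
  have hV0 : 0 ≤ ∏ j ∈ range w, (v j - u j) := prod_nonneg fun j _ => sub_nonneg.2 (huv j)
  have hV1 : ∏ j ∈ range w, (v j - u j) ≤ 1 :=
    prod_le_one (fun j _ => sub_nonneg.2 (huv j)) fun j _ => by linarith [hu j, hv j]
  have key := interp (P := fun n => ∀ j < w, u j ≤ Int.fract (y (n + j)) ∧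
    Int.fract (y (n + j)) < v j) hV0 hV1 hδ hδ1 hδε hn0 ht hsc (by
      intro i hi
      have h1 := hbox (Ico n0 (t i)) y (by
        rw [nonempty_Ico]
        have := ht i hi
        omega) (fun h h2 h3 => hgood i hi h (mem_smL.2 ⟨h2, h3⟩)) (fun j => u j) (fun j => v j)
        (fun j => hu j) (fun j => huv j) (fun j => hv j)
      have h2 : ∏ j : Fin w, (v j - u j) = ∏ j ∈ range w, (v j - u j) :=
        (Finset.prod_range (fun j => v j - u j)).symm
      rw [h2] at h1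
      have h3 : (Ico n0 (t i)).filter (fun n => ∀ j : Fin w, u j ≤ Int.fract (y (n + j)) ∧
          Int.fract (y (n + j)) < v j) = (Ico n0 (t i)).filter (fun n => ∀ j < w,
          u j ≤ Int.fract (y (n + j)) ∧ Int.fract (y (n + j)) < v j) := by
        refine filter_congr fun n _ => ?_
        exact ⟨fun h j hj => h ⟨j, hj⟩, fun h j => h j j.isLt⟩
      rw [h3] at h1
      exact h1) N hN
  convert key using 4

open Classical in
theorem sm : S_SM := by
  intro w ε hε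
  obtain ⟨δ, hδ, hδ1, hδε⟩ : ∃ δ : ℝ, 0 < δ ∧ δ ≤ 1 ∧ 8 * δ ≤ ε := by
    refine ⟨min ε 1 / 8, by positivity, ?_, ?_⟩
    · have := min_le_right ε 1
      linarith
    · have := min_le_left ε 1
      linarith
  obtain ⟨K, D, hD, hbox⟩ := box w δ hδ
  obtain ⟨C3, hC3, hscal⟩ := scales δ hδ
  refine ⟨K, ((smL w K).card : ℝ) / D ^ 2 * (2 * C3), by positivity, ?_⟩
  intro I z n0 N1 η hn0 hn01 hη hyp
  have hlog : 0 ≤ Real.log N1 := Real.log_natCast_nonneg _
  by_cases hN : 2 * n0 ≤ N1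
  · obtain ⟨m, t, ht, hm, hsum, hsc⟩ := hscal n0 N1 hn0 hN
    have hsub : I.filter (fun a => ¬ Eqd w ε (2 * n0) N1 (z a)) ⊆
        (range (m + 1) ×ˢ smL w K).biUnion (fun p => I.filter (fun a =>
          D * ((Ico n0 (t p.1)).card : ℝ) <
          ‖∑ n ∈ Ico n0 (t p.1), e (∑ j : Fin w, (p.2 j : ℝ) * z a (n + j))‖)) := by
      intro a ha
      rw [mem_filter] at ha
      rw [mem_biUnion]
      by_contra hcon
      push Not at hcon
      apply ha.2
      refine smGood hδ hδ1 hδε hbox hn0 (fun i hi => (ht i hi).1) hsc ?_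
      intro i hi h hh
      have h1 := hcon (i, h) (mem_product.2 ⟨mem_range.2 (by omega), hh⟩)
      rw [mem_filter, not_and, not_lt] at h1
      exact h1 ha.1
    have h1 : ((I.filter (fun a => ¬ Eqd w ε (2 * n0) N1 (z a))).card : ℝ) ≤
        ∑ p ∈ range (m + 1) ×ˢ smL w K, (I.card : ℝ) / D ^ 2 * (2 * (1 / (t p.1 : ℝ)) + η) := by
      refine le_trans (Nat.cast_le.2 ((card_le_card hsub).trans card_biUnion_le)) ?_
      rw [Nat.cast_sum]
      refine sum_le_sum fun p hp => ?_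
      rw [mem_product, mem_range] at hp
      have hp1 := ht p.1 (by omega)
      exact smEvent hp.2 hD hn0 hη hyp hp1.1 hp1.2
    refine h1.trans ?_
    rw [sum_product]
    have h2 : ∑ i ∈ range (m + 1), ∑ _h ∈ smL w K,
        (I.card : ℝ) / D ^ 2 * (2 * (1 / (t i : ℝ)) + η) =
        ((smL w K).card : ℝ) * ((I.card : ℝ) / D ^ 2) *
          (2 * ∑ i ∈ range (m + 1), 1 / (t i : ℝ) + η * (m + 1)) := by
      simp only [sum_const, nsmul_eq_mul]
      rw [← mul_sum, ← mul_sum, sum_add_distrib, ← mul_sum, sum_const, card_range, nsmul_eq_mul]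
      push_cast
      ring
    rw [h2]
    have h3 : 2 * ∑ i ∈ range (m + 1), 1 / (t i : ℝ) + η * (m + 1) ≤
        2 * C3 * (1 / n0 + η * (1 + Real.log N1)) := by
      have h4 : η * ((m : ℝ) + 1) ≤ η * (C3 * (1 + Real.log N1)) :=
        mul_le_mul_of_nonneg_left hm hη
      have h5 : 0 ≤ η * (C3 * (1 + Real.log N1)) := by positivity
      have h6 : 2 * C3 * (1 / n0 + η * (1 + Real.log N1)) =
          2 * (C3 / n0) + 2 * (η * (C3 * (1 + Real.log N1))) := by ring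
      rw [h6]
      linarith
    calc ((smL w K).card : ℝ) * ((I.card : ℝ) / D ^ 2) *
          (2 * ∑ i ∈ range (m + 1), 1 / (t i : ℝ) + η * (m + 1)) ≤
          ((smL w K).card : ℝ) * ((I.card : ℝ) / D ^ 2) *
          (2 * C3 * (1 / n0 + η * (1 + Real.log N1))) :=
          mul_le_mul_of_nonneg_left h3 (by positivity)
      _ = _ := by ring
  · have h1 : I.filter (fun a => ¬ Eqd w ε (2 * n0) N1 (z a)) = ∅ := by
      rw [filter_eq_empty_iff]
      intro a _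
      rw [not_not]
      intro N u v hNN hu huv hv
      have hV0 : 0 ≤ ∏ j ∈ range w, (v j - u j) := prod_nonneg fun j _ => sub_nonneg.2 (huv j)
      have hV1 : ∏ j ∈ range w, (v j - u j) ≤ 1 :=
        prod_le_one (fun j _ => sub_nonneg.2 (huv j)) fun j _ => by linarith [hu j, hv j]
      have h2 : (((Finset.range N).filter (fun n => ∀ j < w, u j ≤ Int.fract (z a (n + j)) ∧
        Int.fract (z a (n + j)) < v j)).card : ℝ) ≤ N := by
        have := card_filter_le (range N) (fun n => ∀ j < w, u j ≤ Int.fract (z a (n + j)) ∧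
          Int.fract (z a (n + j)) < v j)
        rw [card_range] at this
        exact_mod_cast this
      have h3 : (0 : ℝ) ≤ (((Finset.range N).filter (fun n => ∀ j < w,
        u j ≤ Int.fract (z a (n + j)) ∧ Int.fract (z a (n + j)) < v j)).card : ℝ) :=
        Nat.cast_nonneg _
      have hNR : (0 : ℝ) ≤ N := Nat.cast_nonneg _
      have h4 : (N : ℝ) ≤ 2 * n0 := by
        have : N ≤ 2 * n0 := by omega
        exact_mod_cast this
      have h5 : 0 ≤ ε * N := by positivity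
      have h6 : N * ∏ j ∈ range w, (v j - u j) ≤ N := mul_le_of_le_one_right hNR hV1
      have h7 : 0 ≤ N * ∏ j ∈ range w, (v j - u j) := mul_nonneg hNR hV0
      rw [abs_le]
      constructor <;> linarith
    rw [h1, card_empty, Nat.cast_zero]
    positivity

end Pool.Agent.N586.KO
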