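import Pool.Agent.N586.KO.Stm
import Pool.Agent.Y933.KG.Der

/-!
# Project KO: the number of places where an integral polynomial is small
-/

set_option autoImplicit false

namespace Pool.Agent.N586.KO

open Finset Polynomial
open Pool.Agent.Y933.KG (root_avoid)

/-- the polynomial with the coefficients `l` -/
noncomputable def plP (w : ℕ) (l : ℕ → ℤ) : ℝ[X] := ∑ j ∈ range w, C (l j : ℝ) * X ^ j

lemma plP_eval (w : ℕ) (l : ℕ → ℤ) (x : ℝ) : (plP w l).eval x = pl w l x := by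
  unfold plP pl
  rw [eval_finsetSum]
  refine sum_congr rfl fun j _ => ?_
  simp

lemma plP_coeff (w : ℕ) (l : ℕ → ℤ) (i : ℕ) : (plP w l).coeff i = if i < w then (l i : ℝ) else 0 := by
  unfold plP
  simp only [finsetSum_coeff, coeff_C_mul_X_pow]
  rw [Finset.sum_ite_eq (range w) i (fun j => (l j : ℝ))]
  simp only [Finset.mem_range]

lemma plP_ne (w : ℕ) (l : ℕ → ℤ) (h : ∃ j < w, l j ≠ 0) : plP w l ≠ 0 := by
  obtain ⟨j, hj, hl⟩ := h
  intro h0
  have h1 := plP_coeff w l j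
  rw [h0, coeff_zero, if_pos hj] at h1
  exact hl (by exact_mod_cast h1.symm)

lemma plP_deg (w : ℕ) (l : ℕ → ℤ) (h : ∃ j < w, l j ≠ 0) : (plP w l).natDegree < w := by
  by_contra hcon
  have h1 := plP_coeff w l (plP w l).natDegree
  rw [if_neg (by omega)] at h1
  exact plP_ne w l h (leadingCoeff_eq_zero.1 h1)

lemma plP_lead (w : ℕ) (l : ℕ → ℤ) (h : ∃ j < w, l j ≠ 0) : 1 ≤ |(plP w l).leadingCoeff| := by
  have h1 := plP_coeff w l (plP w l).natDegree
  rw [if_pos (plP_deg w l h)] at h1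
  have h2 : (plP w l).leadingCoeff = ((l (plP w l).natDegree : ℤ) : ℝ) := h1
  have h3 : l (plP w l).natDegree ≠ 0 := by
    intro h4
    rw [h4, Int.cast_zero] at h2
    exact plP_ne w l h (leadingCoeff_eq_zero.1 h2)
  rw [h2]
  exact_mod_cast Int.one_le_abs h3

lemma near_count (g : ℕ → ℝ) (A B : ℕ) (c0 ρ t : ℝ) (hc : 0 < c0) (hρ : 0 ≤ ρ)
    (hg : ∀ a a' : ℕ, A ≤ a → a ≤ a' → a' ≤ B → c0 * ((a' : ℝ) - a) ≤ g a' - g a) :
    (((Icc A B).filter (fun a : ℕ => |g a - t| < ρ)).card : ℝ) ≤ 2 * ρ / c0 + 1 := by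
  set S := (Icc A B).filter (fun a : ℕ => |g a - t| < ρ) with hS
  rcases S.eq_empty_or_nonempty with h0 | h0
  · rw [h0, card_empty, Nat.cast_zero]
    positivity
  · have hm := S.min'_mem h0
    have hM := S.max'_mem h0
    have hle : S.min' h0 ≤ S.max' h0 := S.min'_le _ hM
    set m := S.min' h0
    set M := S.max' h0
    have hm' := Finset.mem_filter.1 hm
    have hM' := Finset.mem_filter.1 hM
    have hmI := Finset.mem_Icc.1 hm'.1
    have hMI := Finset.mem_Icc.1 hM'.1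
    have h1 : S ⊆ Icc m M := fun x hx => Finset.mem_Icc.2 ⟨S.min'_le _ hx, S.le_max' _ hx⟩
    have h2 := card_le_card h1
    rw [Nat.card_Icc] at h2
    have h3 : (S.card : ℝ) ≤ (M : ℝ) - m + 1 := by
      have : (S.card : ℝ) ≤ ((M + 1 - m : ℕ) : ℝ) := by exact_mod_cast h2
      rw [Nat.cast_sub (by omega)] at this
      push_cast at this
      linarith
    have h4 := hg m M hmI.1 hle hMI.2
    have h5 := abs_lt.1 hm'.2
    have h6 := abs_lt.1 hM'.2
    have h7 : (M : ℝ) - m ≤ 2 * ρ / c0 := by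
      rw [le_div_iff₀ hc]
      nlinarith [h4, h5.1, h5.2, h6.1, h6.2]
    linarith

open Classical in
/-- the number of places where an integral polynomial is small -/
theorem spc (w : ℕ) (hw : 1 ≤ w) (l : ℕ → ℤ) (hl : ∃ j < w, l j ≠ 0) (g : ℕ → ℝ) (A B : ℕ)
    (c0 : ℝ) (hc : 0 < c0)
    (hg : ∀ a a' : ℕ, A ≤ a → a ≤ a' → a' ≤ B → c0 * ((a' : ℝ) - a) ≤ g a' - g a)
    (η : ℝ) (hη : 0 < η) (hη1 : η ≤ 1) :
    (((Icc A B).filter (fun a : ℕ => |pl w l (g a)| < η)).card : ℝ) ≤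
      w * (2 * η ^ (1 / (w : ℝ)) / c0 + 1) := by
  obtain ⟨E, hE, hE2⟩ := root_avoid (plP w l)
  have hdeg := plP_deg w l hl
  set ρ := η ^ (1 / (w : ℝ)) with hρ
  have hw0 : (w : ℝ) ≠ 0 := by
    have : 0 < w := hw
    positivity
  have hρ0 : 0 < ρ := by positivity
  have hρ1 : ρ ≤ 1 := Real.rpow_le_one hη.le hη1 (by positivity)
  have hρw : ρ ^ w = η := by
    rw [hρ, ← Real.rpow_natCast, ← Real.rpow_mul hη.le, one_div_mul_cancel hw0, Real.rpow_one]
  have hsub : (Icc A B).filter (fun a : ℕ => |pl w l (g a)| < η) ⊆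
      E.biUnion (fun t => (Icc A B).filter (fun a : ℕ => |g a - t| < ρ)) := by
    intro a ha
    rw [Finset.mem_filter] at ha
    rw [Finset.mem_biUnion]
    by_contra hcon
    push Not at hcon
    have h1 : ∀ t ∈ E, ρ ≤ |g a - t| := by
      intro t ht
      by_contra h2
      push Not at h2
      exact hcon t ht (Finset.mem_filter.2 ⟨ha.1, h2⟩)
    have h2 := hE2 (g a) ρ hρ0.le h1
    rw [plP_eval] at h2
    have h3 : η ≤ |(plP w l).leadingCoeff| * ρ ^ (plP w l).natDegree := by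
      calc η = 1 * ρ ^ w := by rw [hρw, one_mul]
        _ ≤ |(plP w l).leadingCoeff| * ρ ^ (plP w l).natDegree :=
          mul_le_mul (plP_lead w l hl) (pow_le_pow_of_le_one hρ0.le hρ1 hdeg.le) (by positivity)
            (abs_nonneg _)
    linarith [ha.2]
  have h1 : (((Icc A B).filter (fun a : ℕ => |pl w l (g a)| < η)).card : ℝ) ≤
      ∑ t ∈ E, (((Icc A B).filter (fun a : ℕ => |g a - t| < ρ)).card : ℝ) := by
    exact_mod_cast (card_le_card hsub).trans card_biUnion_le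
  have h2 : ∑ t ∈ E, (((Icc A B).filter (fun a : ℕ => |g a - t| < ρ)).card : ℝ) ≤
      ∑ t ∈ E, (2 * ρ / c0 + 1) := sum_le_sum fun t _ => near_count g A B c0 ρ t hc hρ0.le hg
  rw [sum_const, nsmul_eq_mul] at h2
  have h3 : (E.card : ℝ) ≤ w := by exact_mod_cast hE.trans hdeg.le
  have h4 : (E.card : ℝ) * (2 * ρ / c0 + 1) ≤ w * (2 * ρ / c0 + 1) :=
    mul_le_mul_of_nonneg_right h3 (by positivity)
  linarith

end Pool.Agent.N586.KO
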