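import Pool.Agent.N586.AN.Tn3
import Pool.Agent.N586.AN.Vm

/-!
# Project KO: the theorem of Koksma and Franklin for rational numbers and for rational powers of `e`
and `π`. Statements.

For almost all rational numbers `a / q` of an interval (`q` large, `T₀ q ≤ a ≤ T₁ q`, `T₀ > 1`) the
vectors `(ξ x ^ n, …, ξ x ^ (n + w - 1))`, `x = a / q` or `x = α ^ (a / q)`, are equidistributed modulo
one for `n ≤ (log q) ^ (1 + δ)`, `δ < 1 / 2`.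

Idea: second moment over `a`; the phase `ξ ∑ l j (x ^ (n + j) - x ^ (n' + j))` is expanded at each `a`
as a power series in the shift `y z`, `y, z ≤ q ^ (39 / 100)`, whose coefficients have the right size
up to small powers, so that Vinogradov's method for bilinear sums applies.
-/

set_option autoImplicit false

namespace Pool.Agent.N586.KO

open Finset Filter
open Pool.Agent.Y933.KD (e)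
open Pool.Agent.Y957.VK (TT)

/-- K1: bilinear sums, the coefficients are known up to powers -/
def S_TN4 : Prop := ∃ c : ℝ, 0 < c ∧ ∃ C : ℝ, 0 ≤ C ∧ ∀ (N M : ℕ) (κ : ℝ) (a : ℕ → ℝ), 2 ≤ N →
    2 ≤ κ → 1 ≤ M → (N : ℝ) ^ (19 / 50 : ℝ) ≤ 2 * M → (M : ℝ) ≤ (N : ℝ) ^ (2 / 5 : ℝ) →
    (∀ j ∈ Finset.Icc 1 (⌈5 * κ⌉₊ + 5), 2 * κ ≤ j → (j : ℝ) ≤ 3 * κ + 1 / 2 →
      (N : ℝ) ^ (κ - κ / 20 - j : ℝ) ≤ |a j| ∧ |a j| ≤ (N : ℝ) ^ (κ + κ / 20 - j : ℝ)) →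
    ‖TT (⌈5 * κ⌉₊ + 5) M a‖ ≤ C * (M : ℝ) ^ 2 * (N : ℝ) ^ (-(c / (1 + κ) ^ 2) : ℝ)

/-- the expansion of the powers of `g` at the point `a`, with the scale `Y` -/
structure Ex (g : ℝ → ℝ) (a Y : ℝ) (W : ℕ → ℕ → ℝ) : Prop where
  sum : ∀ (m : ℕ) (y : ℝ), 0 ≤ y → HasSum (fun k => W m k * g a ^ m * y ^ k) (g (a + y) ^ m)
  nonneg : ∀ m k : ℕ, 0 ≤ W m k
  lo : ∀ m k : ℕ, 1 ≤ k → k ≤ m → ((m : ℝ) / (k * Y)) ^ k ≤ W m k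
  up : ∀ m k : ℕ, W m k ≤ ((m : ℝ) / Y) ^ k
  mono : ∀ m' m k : ℕ, m' ≤ m → W m' k ≤ W m k
  ratio : ∀ m j k : ℕ, 1 ≤ m → 2 * k ≤ m → W (m + j) k ≤ Real.exp (2 * j * k / m) * W m k

/-- K2a: the powers of rational numbers -/
def S_FR : Prop := ∀ (q : ℕ) (a : ℝ), 1 ≤ q → 0 < a →
    Ex (fun t => t / q) a a (fun m k => (m.choose k : ℝ) / a ^ k)

/-- K2b: the powers of `α ^ (a / q)` -/
def S_FE : Prop := ∀ (q : ℕ) (a α : ℝ), 1 ≤ q → 1 < α →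
    Ex (fun t => α ^ (t / q)) a (q / Real.log α)
      (fun m k => ((m : ℝ) / (q / Real.log α)) ^ k / k.factorial)

/-- the polynomial -/
noncomputable def pl (w : ℕ) (l : ℕ → ℤ) (x : ℝ) : ℝ := ∑ j ∈ range w, (l j : ℝ) * x ^ j

/-- the phase -/
noncomputable def Fph (w : ℕ) (ξ : ℝ) (l : ℕ → ℤ) (n n' : ℕ) (x : ℝ) : ℝ :=
  ξ * ∑ j ∈ range w, (l j : ℝ) * (x ^ (n + j) - x ^ (n' + j))

/-- the coefficients of the phase -/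
noncomputable def cf (w : ℕ) (ξ : ℝ) (l : ℕ → ℤ) (n n' : ℕ) (x : ℝ) (W : ℕ → ℕ → ℝ) (k : ℕ) : ℝ :=
  ξ * ∑ j ∈ range w, (l j : ℝ) * (W (n + j) k * x ^ (n + j) - W (n' + j) k * x ^ (n' + j))

/-- the length of the variables -/
noncomputable def MM (q : ℕ) : ℕ := ⌊(q : ℝ) ^ (39 / 100 : ℝ)⌋₊

/-- K3: the coefficients of the phase -/
def S_CO : Prop := ∀ (w K : ℕ) (δ T0 T1 C0 : ℝ), 0 < δ → δ < 1 / 2 → 1 < T0 →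
    ∃ c1 : ℝ, 0 < c1 ∧ ∃ C1 : ℝ, 0 < C1 ∧ ∃ L0 : ℝ, ∀ L : ℝ, L0 ≤ L → ∀ (g : ℝ → ℝ) (a Y : ℝ)
    (W : ℕ → ℕ → ℝ), Ex g a Y W → 0 < Y → T0 ≤ g a → g a ≤ T1 → ∀ (ξ : ℝ) (l : ℕ → ℤ) (n n' : ℕ),
    (∀ j, |l j| ≤ K) → n' < n → L ≤ n' → L ^ (-(1 / 2) : ℝ) ≤ |pl w l (g a)| →
    (∀ k : ℕ, 1 ≤ k → (k : ℝ) ≤ C0 * L ^ δ → (k : ℝ) ≤ C0 * n / L →
      c1 * L ^ (-(1 / 2) : ℝ) * (|ξ| * g a ^ n) * ((n : ℝ) / (k * Y)) ^ k ≤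
        |cf w ξ l n n' (g a) W k|) ∧
    (∀ k : ℕ, |cf w ξ l n n' (g a) W k| ≤ C1 * (|ξ| * g a ^ n) * (2 * (n : ℝ) / Y) ^ k) ∧
    ∀ y : ℝ, 0 ≤ y → HasSum (fun k => cf w ξ l n n' (g a) W k * y ^ k) (Fph w ξ l n n' (g (a + y)))

/-- K4: the bilinear sum at one point -/
def S_CORE : Prop := ∀ (w K : ℕ) (ξ δ β T0 T1 : ℝ), ξ ≠ 0 → 0 < δ → 0 < β → 2 * δ + β < 1 →
    1 < T0 → ∃ A0 : ℝ, 0 < A0 ∧ ∃ q0 : ℕ, ∀ q : ℕ, q0 ≤ q → ∀ (g : ℝ → ℝ) (a Y : ℝ)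
    (W : ℕ → ℕ → ℝ), Ex g a Y W → T0 ≤ g a → g a ≤ T1 → (q : ℝ) ^ (99 / 100 : ℝ) ≤ Y →
    Y ≤ (q : ℝ) ^ (101 / 100 : ℝ) → ∀ (l : ℕ → ℤ) (n n' : ℕ), (∀ j, |l j| ≤ K) → n' < n →
    A0 * Real.log q ≤ n' → (n : ℝ) ≤ (Real.log q) ^ (1 + δ) →
    (Real.log q) ^ (-(1 / 2) : ℝ) ≤ |pl w l (g a)| →
    ‖∑ y ∈ Finset.Icc 1 (MM q), ∑ z ∈ Finset.Icc 1 (MM q),
      e (Fph w ξ l n n' (g (a + ((y * z : ℕ) : ℝ))))‖ ≤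
      (MM q : ℝ) ^ 2 * Real.exp (-(Real.log q) ^ β)

open Classical in
/-- K5: the exponential sums over `a` -/
def S_EXPS : Prop := ∀ (w K : ℕ) (ξ δ β T0 T1 : ℝ), ξ ≠ 0 → 0 < δ → 0 < β → 2 * δ + β < 1 →
    1 < T0 → ∃ A0 : ℝ, 0 < A0 ∧ ∃ q0 : ℕ, ∀ q : ℕ, q0 ≤ q → ∀ (g : ℝ → ℝ) (A B : ℕ),
    (∀ a : ℕ, A ≤ a → a ≤ B → ∃ (Y : ℝ) (W : ℕ → ℕ → ℝ), Ex g a Y W ∧ T0 ≤ g a ∧ g a ≤ T1 ∧
      (q : ℝ) ^ (99 / 100 : ℝ) ≤ Y ∧ Y ≤ (q : ℝ) ^ (101 / 100 : ℝ)) →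
    ∀ (l : ℕ → ℤ) (n n' : ℕ), (∀ j, |l j| ≤ K) → n' < n → A0 * Real.log q ≤ n' →
    (n : ℝ) ≤ (Real.log q) ^ (1 + δ) →
    ‖∑ a ∈ Finset.Icc A B, e (Fph w ξ l n n' (g a))‖ ≤
      (((Finset.Icc A B).filter (fun a : ℕ => |pl w l (g a)| < (Real.log q) ^ (-(1 / 2) : ℝ))).card : ℝ) +
        2 * (MM q : ℝ) ^ 2 + ((Finset.Icc A B).card : ℝ) * Real.exp (-(Real.log q) ^ β)

open Classical in
/-- the vectors `(y n, …, y (n + w - 1))`, `n < N`, are equidistributed modulo one up to `ε N + E`,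
for all `N ≤ N1` -/
def Eqd (w : ℕ) (ε E : ℝ) (N1 : ℕ) (y : ℕ → ℝ) : Prop :=
  ∀ (N : ℕ) (u v : ℕ → ℝ), N ≤ N1 → (∀ j, 0 ≤ u j) → (∀ j, u j ≤ v j) → (∀ j, v j ≤ 1) →
    |(((Finset.range N).filter (fun n => ∀ j < w, u j ≤ Int.fract (y (n + j)) ∧
      Int.fract (y (n + j)) < v j)).card : ℝ) - N * ∏ j ∈ Finset.range w, (v j - u j)| ≤ ε * N + E

open Classical in
/-- K6: the second moment method -/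
def S_SM : Prop := ∀ (w : ℕ) (ε : ℝ), 0 < ε → ∃ (K : ℕ) (C : ℝ), 0 ≤ C ∧ ∀ (I : Finset ℕ)
    (z : ℕ → ℕ → ℝ) (n0 N1 : ℕ) (η : ℝ), 1 ≤ n0 → n0 ≤ N1 → 0 ≤ η →
    (∀ l : ℕ → ℤ, (∀ j, |l j| ≤ K) → (∃ j < w, l j ≠ 0) → ∀ n n' : ℕ, n0 ≤ n' → n' < n → n ≤ N1 →
      ‖∑ a ∈ I, e (∑ j ∈ Finset.range w, (l j : ℝ) * (z a (n + j) - z a (n' + j)))‖ ≤
        η * (I.card : ℝ)) →
    ((I.filter (fun a => ¬ Eqd w ε (2 * n0) N1 (z a))).card : ℝ) ≤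
      C * (I.card : ℝ) * (1 / n0 + η * (1 + Real.log N1))

end Pool.Agent.N586.KO
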