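import Pool.Agent.N586.KO.Stm

/-!
# K1: bilinear sums with coefficients known up to small powers (helper953)

This follows `Pool.Agent.N586.AN.Tw3` and `Pool.Agent.N586.AN.Tn3`.
-/

set_option autoImplicit false

namespace Pool.Agent.N586.KO

open Finset Pool.Agent.Y957.VK Pool.Agent.Y70.VK Pool.Agent.Y288.VK Pool.Agent.N586.RT
open Pool.Agent.N586.AN (S_VM)

/-- the factors of the double Hoelder inequality -/
theorem tn4_tw (h : S_WB) : ∃ C : ℝ, 0 ≤ C ∧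
    ∀ (N j r s M : ℕ) (κ : ℝ) (a : ℕ → ℝ),
    2 ≤ N → 2 ≤ κ → r = ⌈5 * κ⌉₊ + 5 → s = 9 * r ^ 2 → 1 ≤ M →
    (N : ℝ) ^ (19 / 50 : ℝ) ≤ 2 * M → (M : ℝ) ≤ (N : ℝ) ^ (2 / 5 : ℝ) →
    j ∈ Finset.Icc 1 r →
    WJ s M j (a j) ≤ (M : ℝ) ^ (2 * j) * Real.exp (C * (1 + κ)) ∧
    (2 * (s : ℝ) ≤ (N : ℝ) ^ (3 * κ / 20) → 2 * κ ≤ j → (j : ℝ) ≤ 3 * κ + 1 / 2 →
      (N : ℝ) ^ (κ - κ / 20 - j : ℝ) ≤ |a j| → |a j| ≤ (N : ℝ) ^ (κ + κ / 20 - j : ℝ) →
      WJ s M j (a j) ≤ (M : ℝ) ^ (2 * j) *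
        (Real.exp (C * (1 + κ)) * (1 + Real.log N) * (N : ℝ) ^ (-(κ / 10) : ℝ))) := by
  obtain ⟨C, hCr⟩ : ∃ C : ℝ, C = 1000000 := ⟨_, rfl⟩
  have hC00 : 0 ≤ C := by rw [hCr]; norm_num
  refine ⟨C, hC00, ?_⟩
  intro N j r s M κ a hN hκ hr hs hM1 hM2 hMr hj
  obtain ⟨hj1, hj2⟩ := mem_Icc.1 hj
  have hNr : (2 : ℝ) ≤ N := by exact_mod_cast hN
  have hN0 : (0 : ℝ) < N := by linarith
  have hN1 : (1 : ℝ) ≤ N := by linarith
  obtain ⟨k, hk⟩ : ∃ k : ℝ, k = 1 + κ := ⟨_, rfl⟩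
  rw [← hk]
  have hk1 : 1 ≤ k := by rw [hk]; linarith
  have hk0 : 0 ≤ k := by linarith
  have hrk : (r : ℝ) ≤ 6 * k := by
    have h1 := Nat.ceil_lt_add_one (a := 5 * κ) (by linarith)
    rw [hr]
    push_cast
    rw [hk]
    linarith
  have hr5 : 5 ≤ r := by omega
  have hr0 : (0 : ℝ) ≤ r := Nat.cast_nonneg r
  have hs1 : 1 ≤ s := by rw [hs]; nlinarith
  have hsr : (s : ℝ) = 9 * (r : ℝ) ^ 2 := by rw [hs]; push_cast; ring
  have hsk : (s : ℝ) ≤ 324 * k ^ 2 := by rw [hsr]; nlinarith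
  have hs0 : (1 : ℝ) ≤ s := by exact_mod_cast hs1
  have hjk : (j : ℝ) ≤ 6 * k := by
    have h1 : (j : ℝ) ≤ r := by exact_mod_cast hj2
    linarith
  have hj0 : (1 : ℝ) ≤ j := by exact_mod_cast hj1
  have hM0 : (1 : ℝ) ≤ M := by exact_mod_cast hM1
  obtain ⟨hW1, hW2⟩ := h s M j (a j) hs1 hM1
  have hVcast : ((s * M ^ j : ℕ) : ℝ) = s * (M : ℝ) ^ j := by push_cast; rfl
  rw [hVcast] at hW1 hW2
  have hMj : (1 : ℝ) ≤ (M : ℝ) ^ j := one_le_pow₀ hM0
  have hV1 : 1 ≤ s * (M : ℝ) ^ j := one_le_mul_of_one_le_of_one_le hs0 hMj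
  constructor
  · have h9 : 9 * (s : ℝ) ^ 2 ≤ Real.exp (C * k) := by
      calc 9 * (s : ℝ) ^ 2 ≤ 9 * (324 * k ^ 2) ^ 2 := by gcongr
        _ = 944784 * k ^ 4 := by ring
        _ ≤ Real.exp ((944784 + (4 : ℕ)) * k) := mul_pow_le (by norm_num) hk1 4
        _ ≤ _ := by
            apply Real.exp_le_exp.2
            push_cast
            rw [hCr]
            linarith
    calc WJ s M j (a j) ≤ (2 * (s * (M : ℝ) ^ j) + 1) ^ 2 := hW1
      _ ≤ (3 * (s * (M : ℝ) ^ j)) ^ 2 := pow_le_pow_left₀ (by linarith) (by linarith) 2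
      _ = (M : ℝ) ^ (2 * j) * (9 * (s : ℝ) ^ 2) := by ring
      _ ≤ _ := mul_le_mul_of_nonneg_left h9 (by positivity)
  · intro hsN hj2κ hj3κ hlow hup
    have hapos : 0 < |a j| := lt_of_lt_of_le (Real.rpow_pos_of_pos hN0 _) hlow
    have hane : a j ≠ 0 := abs_pos.1 hapos
    have hMj2 : (M : ℝ) ^ j ≤ (N : ℝ) ^ (2 / 5 * j : ℝ) := by
      rw [Real.rpow_mul hN0.le, Real.rpow_natCast]
      exact pow_le_pow_left₀ (by linarith) hMr j
    have h2Mj : (N : ℝ) ^ (19 / 50 * j : ℝ) ≤ (2 * M : ℝ) ^ j := by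
      rw [Real.rpow_mul hN0.le, Real.rpow_natCast]
      exact pow_le_pow_left₀ (by positivity) hM2 j
    have hsmall : |a j| * (s * (M : ℝ) ^ j) ≤ 1 / 2 := by
      have h1 : (N : ℝ) ^ (κ + κ / 20 - j : ℝ) * (s * (N : ℝ) ^ (2 / 5 * j : ℝ)) ≤ 1 / 2 := by
        have h2 : (N : ℝ) ^ (κ + κ / 20 - j : ℝ) * (s * (N : ℝ) ^ (2 / 5 * j : ℝ)) =
            s * (N : ℝ) ^ (κ + κ / 20 - j + 2 / 5 * j : ℝ) := by
          rw [Real.rpow_add hN0]
          ring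
        have h3 : (N : ℝ) ^ (κ + κ / 20 - j + 2 / 5 * j : ℝ) ≤ (N : ℝ) ^ (-(3 * κ / 20) : ℝ) :=
          Real.rpow_le_rpow_of_exponent_le hN1 (by linarith)
        have h4 : (N : ℝ) ^ (3 * κ / 20) * (N : ℝ) ^ (-(3 * κ / 20) : ℝ) = 1 := by
          rw [← Real.rpow_add hN0, add_neg_cancel, Real.rpow_zero]
        have h5 : 0 < (N : ℝ) ^ (-(3 * κ / 20) : ℝ) := Real.rpow_pos_of_pos hN0 _
        have h6 : (s : ℝ) * (N : ℝ) ^ (κ + κ / 20 - j + 2 / 5 * j : ℝ) ≤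
            s * (N : ℝ) ^ (-(3 * κ / 20) : ℝ) := mul_le_mul_of_nonneg_left h3 (by positivity)
        have h7 := mul_le_mul_of_nonneg_right hsN h5.le
        rw [h4] at h7
        rw [h2]
        linarith
      refine le_trans ?_ h1
      exact mul_le_mul hup (mul_le_mul_of_nonneg_left hMj2 (by positivity)) (by positivity)
        (Real.rpow_nonneg hN0.le _)
    have hW := hW2 hane hsmall
    have hP : 0 < (N : ℝ) ^ (-(κ / 10) : ℝ) := Real.rpow_pos_of_pos hN0 _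
    have hPP : (N : ℝ) ^ (κ / 10 : ℝ) * (N : ℝ) ^ (-(κ / 10) : ℝ) = 1 := by
      rw [← Real.rpow_add hN0, add_neg_cancel, Real.rpow_zero]
    have hlogN : 0 ≤ Real.log N := Real.log_nonneg hN1
    have hlogs : 0 ≤ Real.log s := Real.log_nonneg hs0
    obtain ⟨Q, hQ⟩ : ∃ Q : ℝ, Q = (M : ℝ) ^ (2 * j) * (N : ℝ) ^ (-(κ / 10) : ℝ) := ⟨_, rfl⟩
    have hQ0 : 0 < Q := by rw [hQ]; positivity
    have hF1 : 3 * (s * (M : ℝ) ^ j) ≤ 3 * s * 2 ^ j * Q := by
      have h1 : 1 ≤ (2 * M : ℝ) ^ j * (N : ℝ) ^ (-(κ / 10) : ℝ) := by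
        rw [← hPP]
        refine mul_le_mul_of_nonneg_right (le_trans ?_ h2Mj) hP.le
        exact Real.rpow_le_rpow_of_exponent_le hN1 (by linarith)
      calc 3 * (s * (M : ℝ) ^ j) = 3 * s * (M : ℝ) ^ j * 1 := by ring
        _ ≤ 3 * s * (M : ℝ) ^ j * ((2 * M : ℝ) ^ j * (N : ℝ) ^ (-(κ / 10) : ℝ)) :=
          mul_le_mul_of_nonneg_left h1 (by positivity)
        _ = 3 * s * 2 ^ j * Q := by rw [hQ, mul_pow, two_mul j, pow_add]; ring
    have hF2 : 1 / |a j| ≤ 4 ^ j * Q := by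
      have h0 : 1 / |a j| ≤ 1 / ((N : ℝ) ^ (κ - κ / 20 - j : ℝ)) :=
        one_div_le_one_div_of_le (Real.rpow_pos_of_pos hN0 _) hlow
      refine h0.trans ?_
      have h1 : 1 / ((N : ℝ) ^ (κ - κ / 20 - j : ℝ)) = (N : ℝ) ^ (j + κ / 20 - κ : ℝ) := by
        rw [one_div, ← Real.rpow_neg hN0.le]
        congr 1
        ring
      have h4 : (4 : ℝ) ^ j = 2 ^ j * 2 ^ j := by
        rw [← mul_pow]; norm_num
      rw [h1]
      calc (N : ℝ) ^ (j + κ / 20 - κ : ℝ) ≤ (N : ℝ) ^ (19 / 50 * j + 19 / 50 * j + -(κ / 10) : ℝ) :=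
            Real.rpow_le_rpow_of_exponent_le hN1 (by linarith)
        _ = (N : ℝ) ^ (19 / 50 * j : ℝ) * (N : ℝ) ^ (19 / 50 * j : ℝ) *
              (N : ℝ) ^ (-(κ / 10) : ℝ) := by
            rw [Real.rpow_add hN0, Real.rpow_add hN0]
        _ ≤ (2 * M : ℝ) ^ j * (2 * M : ℝ) ^ j * (N : ℝ) ^ (-(κ / 10) : ℝ) := by gcongr
        _ = 4 ^ j * Q := by rw [hQ, mul_pow, two_mul j, pow_add, h4]; ring
    have hlogV : Real.log (s * (M : ℝ) ^ j) ≤ Real.log s + j * Real.log N := by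
      rw [Real.log_mul (by positivity) (by positivity), Real.log_pow]
      have h1 : Real.log M ≤ Real.log N := by
        refine Real.log_le_log (by linarith) (hMr.trans ?_)
        calc (N : ℝ) ^ (2 / 5 : ℝ) ≤ (N : ℝ) ^ (1 : ℝ) :=
              Real.rpow_le_rpow_of_exponent_le hN1 (by norm_num)
          _ = N := Real.rpow_one _
      have h2 := mul_le_mul_of_nonneg_left h1 (Nat.cast_nonneg (α := ℝ) j)
      linarith
    have hlog : 1 + Real.log (s * (M : ℝ) ^ j) ≤ (1 + Real.log s + j) * (1 + Real.log N) := by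
      have h3 := mul_nonneg hlogs hlogN
      have h4 : (1 + Real.log s + j) * (1 + Real.log N) =
          1 + Real.log s + j + Real.log N + Real.log s * Real.log N + j * Real.log N := by ring
      rw [h4]
      linarith
    have hlogV0 : 0 ≤ Real.log (s * (M : ℝ) ^ j) := Real.log_nonneg hV1
    have hE : 3 * s * 2 ^ j + 4 ^ j * (1 + Real.log s + j) ≤ Real.exp (C * k) := by
      have e2 := two_pow_le hjk
      have e1 : 3 * (s : ℝ) * 2 ^ j ≤ Real.exp (980 * k) := by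
        calc 3 * (s : ℝ) * 2 ^ j ≤ (972 * k ^ 2) * Real.exp (6 * k) := by
              refine mul_le_mul (by linarith) e2 (by positivity) (by positivity)
          _ ≤ Real.exp ((972 + (2 : ℕ)) * k) * Real.exp (6 * k) :=
              mul_le_mul_of_nonneg_right (mul_pow_le (by norm_num) hk1 2) (Real.exp_pos _).le
          _ = Real.exp (980 * k) := by rw [← Real.exp_add]; push_cast; ring_nf
      have e8 : (4 : ℝ) ^ j ≤ Real.exp (12 * k) := by
        calc (4 : ℝ) ^ j = (2 ^ j) ^ 2 := by rw [← pow_mul, mul_comm, pow_mul]; norm_num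
          _ ≤ (Real.exp (6 * k)) ^ 2 := pow_le_pow_left₀ (by positivity) e2 2
          _ = Real.exp (12 * k) := by rw [← Real.exp_nat_mul]; push_cast; ring_nf
      have el : 1 + Real.log s + j ≤ 331 * k ^ 2 := by
        have h1 := Real.log_le_self (x := (s : ℝ)) (by linarith)
        have h2 : k ≤ k ^ 2 := le_self_pow₀ hk1 (by norm_num)
        linarith
      have e3 : 4 ^ j * (1 + Real.log s + j) ≤ Real.exp (345 * k) := by
        calc 4 ^ j * (1 + Real.log s + j) ≤ Real.exp (12 * k) * (331 * k ^ 2) := by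
              refine mul_le_mul e8 el (by positivity) (by positivity)
          _ = (331 * k ^ 2) * Real.exp (12 * k) := by ring
          _ ≤ Real.exp ((331 + (2 : ℕ)) * k) * Real.exp (12 * k) :=
              mul_le_mul_of_nonneg_right (mul_pow_le (by positivity) hk1 2) (Real.exp_pos _).le
          _ = Real.exp (345 * k) := by rw [← Real.exp_add]; push_cast; ring_nf
      have e4 : Real.exp (345 * k) ≤ Real.exp (980 * k) :=
        Real.exp_le_exp.2 (by nlinarith)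
      have e5 : 2 ≤ Real.exp k := by
        have h1 := Real.add_one_le_exp k
        linarith
      calc 3 * s * 2 ^ j + 4 ^ j * (1 + Real.log s + j) ≤
          2 * Real.exp (980 * k) := by linarith
        _ ≤ Real.exp k * Real.exp (980 * k) :=
            mul_le_mul_of_nonneg_right e5 (Real.exp_pos _).le
        _ = Real.exp (981 * k) := by rw [← Real.exp_add]; ring_nf
        _ ≤ _ := by
            apply Real.exp_le_exp.2
            nlinarith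
    calc WJ s M j (a j) ≤ 2 * (s * (M : ℝ) ^ j) + 1 +
          1 / |a j| * (1 + Real.log (s * (M : ℝ) ^ j)) := hW
      _ ≤ 3 * s * 2 ^ j * Q + 4 ^ j * Q *
          ((1 + Real.log s + j) * (1 + Real.log N)) := by
            have h1 : 1 / |a j| * (1 + Real.log (s * (M : ℝ) ^ j)) ≤
              4 ^ j * Q * ((1 + Real.log s + j) * (1 + Real.log N)) :=
              mul_le_mul hF2 hlog (by linarith) (by positivity)
            linarith
      _ ≤ (3 * s * 2 ^ j + 4 ^ j * (1 + Real.log s + j)) *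
          ((1 + Real.log N) * Q) := by
            have h1 : 0 ≤ 3 * s * 2 ^ j * Q * Real.log N := by positivity
            have h2 : (3 * s * 2 ^ j + 4 ^ j * (1 + Real.log s + j)) *
                ((1 + Real.log N) * Q) = 3 * s * 2 ^ j * Q + 3 * s * 2 ^ j * Q * Real.log N +
                4 ^ j * Q * ((1 + Real.log s + j) * (1 + Real.log N)) := by ring
            rw [h2]
            linarith
      _ ≤ Real.exp (C * k) * ((1 + Real.log N) * Q) :=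
            mul_le_mul_of_nonneg_right hE (by positivity)
      _ = _ := by rw [hQ]; ring

theorem tn4_final {κ L l r η g A0 A1 y K : ℝ} (hκ : 2 ≤ κ) (hL : 0 ≤ L) (hl : 0 ≤ l)
    (hlL : l ≤ 2 / 5 * L) (hr : 5 * κ + 5 ≤ r) (hr' : r ≤ 5 * κ + 6)
    (hη : η ≤ r * (r + 1) / 2 / 2937) (hg : κ / 2 ≤ g) (hA0 : 0 ≤ A0) (hA1 : 0 ≤ A1)
    (hK : 2 * A1 + r * A0 + 1700 * r ≤ 4 * (9 * r ^ 2) ^ 2 * K)
    (H : 4 * (9 * r ^ 2) ^ 2 * y ≤ (8 * (9 * r ^ 2) ^ 2 - 4 * (9 * r ^ 2)) * l +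
      2 * (A1 + (2 * (r ^ 2 + r * (8 * r)) - r * (r + 1) / 2 + η) * l) +
      (r * (r + 1) * l + r * A0 + r * Real.log (1 + L) - g * (κ / 10 * L))) :
    y ≤ 2 * l + K - 1 / 10 ^ 10 / (1 + κ) ^ 2 * L := by
  have hκ0 : 0 < κ := by linarith
  have hr0 : 0 < r := by linarith
  have hr17 : r ≤ 8 * κ := by linarith
  have hr19 : r + 1 ≤ 9 * κ := by linarith
  have h1 := log_one_add (by linarith) hL hr0 (show r ≤ 17 * κ by linarith)
  have hrr : r * (r + 1) ≤ 72 * κ ^ 2 := by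
    calc r * (r + 1) ≤ (8 * κ) * (9 * κ) := by gcongr
      _ = 72 * κ ^ 2 := by ring
  have h2 : 2 * η * l ≤ 0.01 * κ ^ 2 * L := by
    have h3 : 2 * η ≤ 72 * κ ^ 2 / 2937 := by
      calc 2 * η ≤ r * (r + 1) / 2937 := by linarith
        _ ≤ 72 * κ ^ 2 / 2937 := by gcongr
    calc 2 * η * l ≤ 72 * κ ^ 2 / 2937 * l := by gcongr
      _ ≤ 72 * κ ^ 2 / 2937 * (2 / 5 * L) := by gcongr
      _ = (72 * 2 / (2937 * 5)) * (κ ^ 2 * L) := by ring
      _ ≤ 0.01 * (κ ^ 2 * L) := by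
          refine mul_le_mul_of_nonneg_right (by norm_num) (by positivity)
      _ = 0.01 * κ ^ 2 * L := by ring
  have h3 : κ ^ 2 / 20 * L ≤ g * (κ / 10 * L) := by
    calc κ ^ 2 / 20 * L = κ / 2 * (κ / 10 * L) := by ring
      _ ≤ g * (κ / 10 * L) := by gcongr
  have h4 : 4 * (9 * r ^ 2) ^ 2 * y ≤ 8 * (9 * r ^ 2) ^ 2 * l + (2 * A1 + r * A0 + 1700 * r) -
      0.02 * κ ^ 2 * L := by
    nlinarith
  have hs1 : (1 : ℝ) ≤ 4 * (9 * r ^ 2) ^ 2 := by
    have h5 : (1 : ℝ) ≤ r := by linarith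
    have h6 : (1 : ℝ) ≤ r ^ 2 := one_le_pow₀ h5
    nlinarith
  have h5 : 4 * (9 * r ^ 2) ^ 2 * (1 / 10 ^ 10 / (1 + κ) ^ 2) ≤ 0.02 * κ ^ 2 := by
    have h6 : r ^ 2 ≤ 64 * κ ^ 2 := by
      calc r ^ 2 ≤ (8 * κ) ^ 2 := by gcongr
        _ = 64 * κ ^ 2 := by ring
    have h7 : (9 * r ^ 2) ^ 2 ≤ (576 * κ ^ 2) ^ 2 := by
      apply pow_le_pow_left₀ (by positivity)
      linarith
    have h8 : κ ^ 2 ≤ (1 + κ) ^ 2 := by gcongr; linarith
    have h9 : (0 : ℝ) < (1 + κ) ^ 2 := by positivity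
    rw [div_div, ← mul_div_assoc, div_le_iff₀ (by positivity)]
    calc 4 * (9 * r ^ 2) ^ 2 * 1 ≤ 4 * (576 * κ ^ 2) ^ 2 := by linarith
      _ = 1327104 * (κ ^ 2 * κ ^ 2) := by ring
      _ ≤ (0.02 * 10 ^ 10) * (κ ^ 2 * (1 + κ) ^ 2) := by
          have h10 : κ ^ 2 * κ ^ 2 ≤ κ ^ 2 * (1 + κ) ^ 2 := by gcongr
          have h11 : 0 ≤ κ ^ 2 * κ ^ 2 := by positivity
          nlinarith
      _ = 0.02 * κ ^ 2 * (10 ^ 10 * (1 + κ) ^ 2) := by ring
  refine le_of_mul_le_mul_left ?_ (lt_of_lt_of_le one_pos hs1)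
  have h6 : 4 * (9 * r ^ 2) ^ 2 * (1 / 10 ^ 10 / (1 + κ) ^ 2) * L ≤ 0.02 * κ ^ 2 * L := by
    gcongr
  calc 4 * (9 * r ^ 2) ^ 2 * y ≤ 8 * (9 * r ^ 2) ^ 2 * l + 4 * (9 * r ^ 2) ^ 2 * K -
        4 * (9 * r ^ 2) ^ 2 * (1 / 10 ^ 10 / (1 + κ) ^ 2) * L := by linarith
    _ = 4 * (9 * r ^ 2) ^ 2 * (2 * l + K - 1 / 10 ^ 10 / (1 + κ) ^ 2 * L) := by ring

theorem tn4_consts {κ r C0 C1 : ℝ} (hC0 : 0 ≤ C0) (hC1 : 0 ≤ C1) (hκ : 1 / 2 ≤ κ)
    (hr : 5 * κ + 5 ≤ r) :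
    2 * (C1 * (r + 8 * r) ^ 4) + r * (C0 * (1 + κ)) + 1700 * r ≤
      4 * (9 * r ^ 2) ^ 2 * (41 * C1 + C0 + 6) := by
  have hr1 : 1 ≤ r := by linarith
  have hr0 : 0 ≤ r := by linarith
  have h1 : (1 + κ) ≤ r := by linarith
  have h3 : r ≤ r ^ 4 := le_self_pow₀ hr1 (by norm_num)
  have h2 : r * (C0 * (1 + κ)) ≤ C0 * r ^ 4 := by
    calc r * (C0 * (1 + κ)) ≤ r * (C0 * r) := by gcongr
      _ = C0 * r ^ 2 := by ring
      _ ≤ C0 * r ^ 4 := by
          refine mul_le_mul_of_nonneg_left ?_ hC0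
          exact pow_le_pow_right₀ hr1 (by norm_num)
  have h4 : 0 ≤ C1 * r ^ 4 := by positivity
  have h5 : 0 ≤ C0 * r ^ 4 := by positivity
  calc 2 * (C1 * (r + 8 * r) ^ 4) + r * (C0 * (1 + κ)) + 1700 * r
      ≤ 2 * (C1 * (r + 8 * r) ^ 4) + C0 * r ^ 4 + 1700 * r ^ 4 := by linarith
    _ = 13122 * (C1 * r ^ 4) + C0 * r ^ 4 + 1700 * r ^ 4 := by ring
    _ ≤ 13284 * (C1 * r ^ 4) + 324 * (C0 * r ^ 4) + 1944 * r ^ 4 := by
        have : 0 ≤ r ^ 4 := by positivity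
        linarith
    _ = 4 * (9 * r ^ 2) ^ 2 * (41 * C1 + C0 + 6) := by ring

theorem tn4_of (hvm : S_VM) : S_TN4 := by
  obtain ⟨C1, hC1, hV⟩ := hvm
  obtain ⟨C0, hC0, hW⟩ := tn4_tw Pool.Agent.Y331.VK.wb
  have h2 := dbl_all
  refine ⟨1 / 10 ^ 10, by norm_num, Real.exp (41 * C1 + C0 + 6), (Real.exp_pos _).le, ?_⟩
  intro N M κ a hN hκ hM1 hMlo hMle hadm
  obtain ⟨r, hr⟩ : ∃ r : ℕ, r = ⌈5 * κ⌉₊ + 5 := ⟨_, rfl⟩
  rw [← hr]
  rw [← hr] at hadm
  have hκ0 : 0 < κ := by linarith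
  have hNr : (2 : ℝ) ≤ N := by exact_mod_cast hN
  have hN0 : (0 : ℝ) < N := by linarith
  have hr1 : 5 * κ + 5 ≤ (r : ℝ) := by
    rw [hr]
    push_cast
    have := Nat.le_ceil (5 * κ)
    linarith
  have hr2 : (r : ℝ) ≤ 5 * κ + 6 := by
    rw [hr]
    push_cast
    have := Nat.ceil_lt_add_one (a := 5 * κ) (by linarith)
    linarith
  have hr17 : (r : ℝ) ≤ 8 * κ := by linarith
  have hr0 : (0 : ℝ) ≤ r := Nat.cast_nonneg _
  have hrN : 2 ≤ r := by omega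
  have hM1r : (1 : ℝ) ≤ M := by exact_mod_cast hM1
  obtain ⟨L, hL⟩ : ∃ L : ℝ, L = Real.log N := ⟨_, rfl⟩
  obtain ⟨l, hl⟩ : ∃ l : ℝ, l = Real.log M := ⟨_, rfl⟩
  have hL0 : 0 ≤ L := by rw [hL]; exact Real.log_nonneg (by linarith)
  have hl0 : 0 ≤ l := by rw [hl]; exact Real.log_nonneg hM1r
  have hlL : l ≤ 2 / 5 * L := by
    rw [hl, hL, ← Real.log_rpow hN0]
    exact Real.log_le_log (by linarith) hMle
  have hexpN : ∀ a : ℝ, (N : ℝ) ^ a = Real.exp (a * L) := by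
    intro a
    rw [Real.rpow_def_of_pos hN0, hL, mul_comm]
  have hexpM : (M : ℝ) ^ 2 = Real.exp (2 * l) := by
    rw [hl, mul_comm, Real.exp_mul, Real.exp_log (by linarith)]
    norm_cast
  have hcon := tn4_consts (κ := κ) hC0 hC1 (by linarith) hr1
  rcases (norm_nonneg (TT r M a)).eq_or_lt with hT | hT
  · rw [← hT]
    positivity
  suffices hmain : Real.log ‖TT r M a‖ ≤
      2 * l + (41 * C1 + C0 + 6) - 1 / 10 ^ 10 / (1 + κ) ^ 2 * L by
    rw [hexpM, hexpN, ← Real.exp_add, ← Real.exp_add, ← Real.exp_log hT]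
    apply Real.exp_le_exp.2
    linarith
  by_cases hs : 2 * ((9 * r ^ 2 : ℕ) : ℝ) ≤ (N : ℝ) ^ (3 * κ / 20)
  · -- main case
    have hJ := hV r (8 * r) M hrN hM1
    have hD := h2 (9 * r ^ 2) r M a (by
      have : 0 < r ^ 2 := by positivity
      omega) (by omega) hM1
    have hrs : r ^ 2 + r * (8 * r) = 9 * r ^ 2 := by ring
    rw [hrs] at hJ
    obtain ⟨e, he⟩ : ∃ e : ℝ, e = 2 * ((r : ℝ) ^ 2 + r * (8 * r)) - r * (r + 1) / 2 +
      r * (r + 1) / 2 * (1 - 1 / (r : ℝ)) ^ (8 * r) := ⟨_, rfl⟩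
    have hJ' : (J (9 * r ^ 2) r M : ℝ) ≤ Real.exp (C1 * ((r : ℝ) + 8 * r) ^ 4) * (M : ℝ) ^ e := by
      rw [he]
      refine hJ.trans (le_of_eq ?_)
      push_cast
      rfl
    have hTpow : 0 < ‖TT r M a‖ ^ (4 * (9 * r ^ 2) ^ 2) := pow_pos hT _
    have hprod : 0 < (M : ℝ) ^ (8 * (9 * r ^ 2) ^ 2 - 4 * (9 * r ^ 2)) *
        (J (9 * r ^ 2) r M : ℝ) ^ 2 * ∏ j ∈ Finset.Icc 1 r, WJ (9 * r ^ 2) M j (a j) :=
      hTpow.trans_le hD
    have hJpos : (0 : ℝ) < J (9 * r ^ 2) r M := by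
      rcases (Nat.cast_nonneg (α := ℝ) (J (9 * r ^ 2) r M)).eq_or_lt with h | h
      · rw [← h] at hprod
        simp at hprod
      · exact h
    have hWnn : ∀ j, 0 ≤ WJ (9 * r ^ 2) M j (a j) := by
      intro j
      unfold WJ
      refine Finset.sum_nonneg fun u _ => ?_
      unfold mn dz
      split_ifs
      · positivity
      · refine le_min (by positivity) ?_
        have := abs_nonneg (a j * u - round (a j * u))
        positivity
    have hWpos : ∀ j ∈ Finset.Icc 1 r, 0 < WJ (9 * r ^ 2) M j (a j) := by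
      intro j hj
      rcases (hWnn j).eq_or_lt with h | h
      · rw [Finset.prod_eq_zero hj h.symm, mul_zero] at hprod
        exact absurd hprod (lt_irrefl _)
      · exact h
    have hlogJ : Real.log (J (9 * r ^ 2) r M : ℝ) ≤ C1 * ((r : ℝ) + 8 * r) ^ 4 + e * l := by
      refine (Real.log_le_log hJpos hJ').trans (le_of_eq ?_)
      rw [Real.log_mul (Real.exp_pos _).ne' (Real.rpow_pos_of_pos (by linarith) _).ne',
        Real.log_exp, Real.log_rpow (by linarith), hl]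
    have hlog1L : 0 ≤ Real.log (1 + L) := Real.log_nonneg (by linarith)
    have hlogW : ∀ j ∈ Finset.Icc 1 r, Real.log (WJ (9 * r ^ 2) M j (a j)) ≤
        2 * (j : ℝ) * l + C0 * (1 + κ) + Real.log (1 + L) -
          (if 2 * κ ≤ j ∧ (j : ℝ) ≤ 3 * κ + 1 / 2 then κ / 10 * L else 0) := by
      intro j hj
      obtain ⟨k1, k2⟩ := hW N j r (9 * r ^ 2) M κ a hN hκ hr rfl hM1 hMlo hMle hj
      have hM2j : Real.log ((M : ℝ) ^ (2 * j)) = 2 * (j : ℝ) * l := by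
        rw [Real.log_pow, hl]
        push_cast
        ring
      have hMp : (0 : ℝ) < (M : ℝ) ^ (2 * j) := by positivity
      split_ifs with hg
      · have k3 := k2 hs hg.1 hg.2 (hadm j hj hg.1 hg.2).1 (hadm j hj hg.1 hg.2).2
        refine (Real.log_le_log (hWpos j hj) k3).trans (le_of_eq ?_)
        have k4 : (0 : ℝ) < 1 + Real.log N := by rw [← hL]; linarith
        rw [Real.log_mul hMp.ne' (by positivity), Real.log_mul (by positivity) (by positivity),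
          Real.log_mul (Real.exp_pos _).ne' k4.ne', Real.log_exp, hM2j, Real.log_rpow hN0, ← hL]
        ring
      · refine (Real.log_le_log (hWpos j hj) k1).trans ?_
        rw [Real.log_mul hMp.ne' (Real.exp_pos _).ne', Real.log_exp, hM2j]
        linarith
    obtain ⟨g, hg⟩ : ∃ g : ℝ, g = (((Finset.Icc 1 r).filter fun j : ℕ =>
      2 * κ ≤ j ∧ (j : ℝ) ≤ 3 * κ + 1 / 2).card : ℝ) := ⟨_, rfl⟩
    have hsum : ∑ j ∈ Finset.Icc 1 r, Real.log (WJ (9 * r ^ 2) M j (a j)) ≤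
        r * (r + 1) * l + r * (C0 * (1 + κ)) + r * Real.log (1 + L) - g * (κ / 10 * L) := by
      refine (Finset.sum_le_sum hlogW).trans (le_of_eq ?_)
      rw [Finset.sum_sub_distrib, Finset.sum_add_distrib, Finset.sum_add_distrib,
        ← Finset.sum_mul, sum_two_mul, Finset.sum_const, Finset.sum_const, Nat.card_Icc,
        ← Finset.sum_filter, Finset.sum_const, hg]
      simp only [Nat.add_sub_cancel, nsmul_eq_mul]
    have hlogD : ((4 * (9 * r ^ 2) ^ 2 : ℕ) : ℝ) * Real.log ‖TT r M a‖ ≤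
        ((8 * (9 * r ^ 2) ^ 2 - 4 * (9 * r ^ 2) : ℕ) : ℝ) * l +
          2 * Real.log (J (9 * r ^ 2) r M : ℝ) +
          ∑ j ∈ Finset.Icc 1 r, Real.log (WJ (9 * r ^ 2) M j (a j)) := by
      have k1 := Real.log_le_log hTpow hD
      have k2 : (0 : ℝ) < ∏ j ∈ Finset.Icc 1 r, WJ (9 * r ^ 2) M j (a j) :=
        Finset.prod_pos hWpos
      rw [Real.log_mul (by positivity) k2.ne', Real.log_mul (by positivity) (by positivity),
        Real.log_pow, Real.log_pow, Real.log_pow, Real.log_prod (fun j hj => (hWpos j hj).ne'),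
        ← hl] at k1
      exact_mod_cast k1
    have hcast1 : ((4 * (9 * r ^ 2) ^ 2 : ℕ) : ℝ) = 4 * (9 * (r : ℝ) ^ 2) ^ 2 := by push_cast; ring
    have hcast2 : ((8 * (9 * r ^ 2) ^ 2 - 4 * (9 * r ^ 2) : ℕ) : ℝ) =
        8 * (9 * (r : ℝ) ^ 2) ^ 2 - 4 * (9 * (r : ℝ) ^ 2) := by
      rw [Nat.cast_sub]
      · push_cast
        ring
      · have k1 : 1 ≤ 9 * r ^ 2 := by
          have : 0 < r ^ 2 := by positivity
          omega
        nlinarith
    rw [hcast1, hcast2] at hlogD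
    have hη : r * (r + 1) / 2 * (1 - 1 / (r : ℝ)) ^ (8 * r) ≤ (r : ℝ) * (r + 1) / 2 / 2937 := by
      have k1 := pow_le_exp (r := r) (by omega)
      calc (r : ℝ) * (r + 1) / 2 * (1 - 1 / (r : ℝ)) ^ (8 * r) ≤
          (r : ℝ) * (r + 1) / 2 * (1 / 2937) := by gcongr
        _ = _ := by ring
    exact tn4_final (κ := κ) (L := L) (l := l) (r := r)
      (η := r * (r + 1) / 2 * (1 - 1 / (r : ℝ)) ^ (8 * r)) (g := g)
      (A0 := C0 * (1 + κ)) (A1 := C1 * ((r : ℝ) + 8 * r) ^ 4)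
      (y := Real.log ‖TT r M a‖) hκ hL0 hl0 hlL hr1 hr2 hη
      (by rw [hg]; exact card_good (by linarith) hr1) (by positivity) (by positivity) hcon (by
        rw [← he]
        linarith)
  · -- small `N`
    push Not at hs
    have k1 : 3 * κ / 20 * L ≤ (N : ℝ) ^ (3 * κ / 20) := by
      rw [hexpN]
      have := Real.add_one_le_exp (3 * κ / 20 * L)
      linarith
    have k2 : 3 * κ / 20 * L ≤ 18 * (r : ℝ) ^ 2 := by
      push_cast at hs
      linarith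
    have k3 : (r : ℝ) ^ 2 ≤ 64 * κ ^ 2 := by
      calc (r : ℝ) ^ 2 ≤ (8 * κ) ^ 2 := by gcongr
        _ = 64 * κ ^ 2 := by ring
    have k4 : L ≤ 7680 * (1 + κ) ^ 2 := by
      have k5 : 3 * κ / 20 * L ≤ 3 * κ / 20 * (7680 * κ) := by
        calc 3 * κ / 20 * L ≤ 18 * (64 * κ ^ 2) := by linarith
          _ = 3 * κ / 20 * (7680 * κ) := by ring
      have k6 : L ≤ 7680 * κ := le_of_mul_le_mul_left k5 (by positivity)
      nlinarith
    have k5 : 1 / 10 ^ 10 / (1 + κ) ^ 2 * L ≤ 1 := by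
      have k6 : (0 : ℝ) < (1 + κ) ^ 2 := by positivity
      rw [div_div, div_mul_eq_mul_div, div_le_one (by positivity)]
      nlinarith
    have k6 : Real.log ‖TT r M a‖ ≤ 2 * l := by
      refine (Real.log_le_log hT (TT_le _ _ _)).trans (le_of_eq ?_)
      rw [Real.log_pow, hl]
      norm_num
    linarith

/-- K1 -/
theorem tn4 : S_TN4 := tn4_of Pool.Agent.N586.AN.t_vm

end Pool.Agent.N586.KO
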